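import Pool.Agent.GSBlocks.Copy

set_option autoImplicit false

namespace Pool.Agent.GSBlocks

open Finset Classical

variable {V : Type*}

theorem copy_inj {G : SimpleGraph V} {p : ℕ → ℕ} {n : ℕ} {φ : ℕ → V} (h : IsCopy G p n φ)
    {i j : ℕ} (hi : i < n) (hj : j < n) (hij : i ≠ j) : φ i ≠ φ j := by
  rcases lt_or_gt_of_ne hij with h' | h'
  · exact fun heq => (h j hj i h').1 heq.symm
  · exact (h i hi j h').1

/-- For a heavy block and a copy rooted at `x`, some non-root vertex of the copy lies in the block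
and dominates a large part of the neighbours of `x` in the block. -/
theorem relevant {G : SimpleGraph V} {𝓑 : Finset (Finset V)} {b c : ℕ} {s : ℕ → ℕ}
    (hB : BlockSys G 𝓑 b c s) {p : ℕ → ℕ} {n : ℕ} (hn : p n < n) {S : Finset V}
    (hfree : ¬ ∃ φ, IsCopy G p (n + 1) φ ∧ ∀ i < n + 1, φ i ∈ S) {x : V}
    {φ : ℕ → V} (hφ : IsCopy G p n φ) (hS : ∀ i < n, φ i ∈ S) (hx : φ (p n) = x)
    {t : ℕ} (ht : 2 * n * (b + 1) < t) {B : Finset V} (hBH : B ∈ Heavy G 𝓑 S t x) :
    ∃ i < n, i ≠ p n ∧ φ i ∈ B ∧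
      ((S ∩ B).filter (G.Adj x)).card ≤
        2 * n * (((S ∩ B).filter (G.Adj x)).filter (G.Adj (φ i))).card := by
  by_contra hcon
  push Not at hcon
  obtain ⟨hB1, hB2, hB3⟩ := Finset.mem_filter.1 hBH
  set N := (S ∩ B).filter (G.Adj x) with hN
  -- N is covered
  have hcov : N ⊆ (Finset.range n).image φ ∪
      ((Finset.range n).erase (p n)).biUnion (fun i => N.filter (G.Adj (φ i))) := by
    intro w hw
    rw [Finset.mem_union]
    by_cases hwi : ∀ i < n, φ i ≠ w
    · right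
      have hw' := Finset.mem_filter.1 hw
      obtain ⟨i, hi, hir, hadj⟩ := ext_copy hfree hφ hS (Finset.mem_inter.1 hw'.1).1
        (by rw [hx]; exact hw'.2) hwi
      rw [Finset.mem_biUnion]
      exact ⟨i, Finset.mem_erase.2 ⟨hir, Finset.mem_range.2 hi⟩,
        Finset.mem_filter.2 ⟨hw, hadj⟩⟩
    · left
      push Not at hwi
      obtain ⟨i, hi, hiw⟩ := hwi
      exact Finset.mem_image.2 ⟨i, Finset.mem_range.2 hi, hiw⟩
  have h1 : N.card ≤ n + ∑ i ∈ (Finset.range n).erase (p n), (N.filter (G.Adj (φ i))).card := by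
    refine le_trans (Finset.card_le_card hcov) ?_
    refine le_trans (Finset.card_union_le _ _) ?_
    apply Nat.add_le_add
    · refine le_trans Finset.card_image_le ?_
      rw [Finset.card_range]
    · exact Finset.card_biUnion_le
  have h2 : ∀ i ∈ (Finset.range n).erase (p n),
      2 * n * (N.filter (G.Adj (φ i))).card ≤ 2 * n * b + N.card := by
    intro i hi
    obtain ⟨hir, hi'⟩ := Finset.mem_erase.1 hi
    rw [Finset.mem_range] at hi'
    by_cases hiB : φ i ∈ B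
    · have := hcon i hi' hir hiB
      omega
    · have h3 : (N.filter (G.Adj (φ i))).card ≤ b := by
        refine le_trans (Finset.card_le_card ?_) (hB.out B hB1 (φ i) hiB)
        intro w hw
        rw [Finset.mem_filter] at hw ⊢
        refine ⟨?_, hw.2⟩
        have := (Finset.mem_filter.1 hw.1).1
        exact (Finset.mem_inter.1 this).2
      calc 2 * n * (N.filter (G.Adj (φ i))).card ≤ 2 * n * b := Nat.mul_le_mul_left _ h3
        _ ≤ 2 * n * b + N.card := Nat.le_add_right _ _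
  have h3 : ∑ i ∈ (Finset.range n).erase (p n), 2 * n * (N.filter (G.Adj (φ i))).card
      ≤ (n - 1) * (2 * n * b + N.card) := by
    refine le_trans (Finset.sum_le_sum h2) ?_
    rw [Finset.sum_const, Finset.card_erase_of_mem (Finset.mem_range.2 hn), Finset.card_range,
      smul_eq_mul]
  rw [← Finset.mul_sum] at h3
  have h4 : 2 * n * N.card ≤ 2 * n * n + (n - 1) * (2 * n * b + N.card) := by
    calc 2 * n * N.card ≤ 2 * n * (n + ∑ i ∈ (Finset.range n).erase (p n),
          (N.filter (G.Adj (φ i))).card) := Nat.mul_le_mul_left _ h1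
      _ = 2 * n * n + 2 * n * ∑ i ∈ (Finset.range n).erase (p n),
          (N.filter (G.Adj (φ i))).card := by ring
      _ ≤ _ := by omega
  have hn1 : 1 ≤ n := by omega
  obtain ⟨m, rfl⟩ : ∃ m, n = m + 1 := ⟨n - 1, by omega⟩
  simp only [Nat.add_sub_cancel] at h4
  have hNt : 2 * (m + 1) * (b + 1) < N.card := lt_of_lt_of_le ht hB3
  nlinarith

theorem caseA1 {G : SimpleGraph V} {𝓑 : Finset (Finset V)} {b c : ℕ} {s : ℕ → ℕ}
    (hB : BlockSys G 𝓑 b c s) {p : ℕ → ℕ} {n : ℕ} (hn : p n < n) {S : Finset V}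
    (hfree : ¬ ∃ φ, IsCopy G p (n + 1) φ ∧ ∀ i < n + 1, φ i ∈ S) {x : V} {M : ℕ}
    (hD : Disj G p n S x M) (hM : n * n * (2 * n * b) < M)
    {t : ℕ} (ht : 2 * n * (b + 1) < t) : (Heavy G 𝓑 S t x).card < n := by
  by_contra hcon
  push Not at hcon
  obtain ⟨𝓗, h𝓗, h𝓗c⟩ := Finset.exists_subset_card_eq hcon
  obtain ⟨φ, hφ1, hφ2⟩ := hD
  -- choose relevant indices
  have hrel : ∀ j < M, ∀ B ∈ 𝓗, ∃ i < n, i ≠ p n ∧ φ j i ∈ B ∧
      ((S ∩ B).filter (G.Adj x)).card ≤
        2 * n * (((S ∩ B).filter (G.Adj x)).filter (G.Adj (φ j i))).card := by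
    intro j hj B hBH
    obtain ⟨h1, h2, h3⟩ := hφ1 j hj
    exact relevant hB hn hfree h1 h2 h3 ht (h𝓗 hBH)
  choose! ix hix1 hix2 hix3 hix4 using hrel
  have hpair : ∀ j < M, ∃ B ∈ 𝓗, ∃ B' ∈ 𝓗, B ≠ B' ∧ ix j B = ix j B' := by
    intro j hj
    have hmaps : ∀ B ∈ 𝓗, ix j B ∈ (Finset.range n).erase (p n) := by
      intro B hBH
      exact Finset.mem_erase.2 ⟨hix2 j hj B hBH, Finset.mem_range.2 (hix1 j hj B hBH)⟩
    have hcard : ((Finset.range n).erase (p n)).card < 𝓗.card := by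
      rw [Finset.card_erase_of_mem (Finset.mem_range.2 hn), Finset.card_range, h𝓗c]
      omega
    obtain ⟨B, hB1, B', hB1', hne, heq⟩ :=
      Finset.exists_ne_map_eq_of_card_lt_of_maps_to hcard hmaps
    exact ⟨B, hB1, B', hB1', hne, heq⟩
  choose! P hP1 P' hP1' hPne hPeq using hpair
  -- pigeonhole
  have hmaps2 : ∀ j ∈ Finset.range M, (P j, P' j) ∈ 𝓗 ×ˢ 𝓗 := by
    intro j hj
    rw [Finset.mem_range] at hj
    exact Finset.mem_product.2 ⟨hP1 j hj, hP1' j hj⟩
  have hcard2 : (𝓗 ×ˢ 𝓗).card * (2 * n * b) < (Finset.range M).card := by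
    rw [Finset.card_product, h𝓗c, Finset.card_range]
    exact hM
  obtain ⟨⟨B, B'⟩, hBB, hfib⟩ :=
    Finset.exists_lt_card_fiber_of_mul_lt_card_of_maps_to hmaps2 hcard2
  obtain ⟨hBH, hBH'⟩ := Finset.mem_product.1 hBB
  simp only at hBH hBH'
  set J := (Finset.range M).filter (fun j => (P j, P' j) = (B, B')) with hJ
  have hJmem : ∀ j ∈ J, j < M ∧ P j = B ∧ P' j = B' := by
    intro j hj
    rw [hJ, Finset.mem_filter, Finset.mem_range, Prod.mk.injEq] at hj
    exact ⟨hj.1, hj.2.1, hj.2.2⟩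
  have hJne : J.Nonempty := Finset.card_pos.1 (by omega)
  obtain ⟨j0, hj0⟩ := hJne
  obtain ⟨hj0M, hj0P, hj0P'⟩ := hJmem j0 hj0
  have hBne : B ≠ B' := by
    rw [← hj0P, ← hj0P']
    exact hPne j0 hj0M
  set N := (S ∩ B).filter (G.Adj x) with hN
  set y : ℕ → V := fun j => φ j (ix j B) with hy
  have hyB : ∀ j ∈ J, y j ∈ B ∩ B' := by
    intro j hj
    obtain ⟨hjM, hjP, hjP'⟩ := hJmem j hj
    rw [Finset.mem_inter]
    refine ⟨hix3 j hjM B hBH, ?_⟩
    have h1 := hPeq j hjM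
    rw [hjP, hjP'] at h1
    rw [hy]
    simp only
    rw [h1]
    exact hix3 j hjM B' hBH'
  have hyinj : ∀ j ∈ J, ∀ j' ∈ J, j ≠ j' → y j ≠ y j' := by
    intro j hj j' hj' hne
    obtain ⟨hjM, -, -⟩ := hJmem j hj
    obtain ⟨hjM', -, -⟩ := hJmem j' hj'
    rcases lt_or_gt_of_ne hne with h | h
    · exact fun heq => hφ2 j' hjM' j h _ (hix1 j' hjM' B hBH) _ (hix1 j hjM B hBH)
        (hix2 j' hjM' B hBH) (hix2 j hjM B hBH) heq.symm
    · exact hφ2 j hjM j' h _ (hix1 j hjM B hBH) _ (hix1 j' hjM' B hBH)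
        (hix2 j hjM B hBH) (hix2 j' hjM' B hBH)
  have hsum1 : J.card * N.card ≤ 2 * n * ∑ j ∈ J, (N.filter (G.Adj (y j))).card := by
    rw [Finset.mul_sum, ← smul_eq_mul, ← Finset.sum_const]
    apply Finset.sum_le_sum
    intro j hj
    obtain ⟨hjM, -, -⟩ := hJmem j hj
    exact hix4 j hjM B hBH
  have hsum2 : ∑ j ∈ J, (N.filter (G.Adj (y j))).card
      = ∑ w ∈ N, (J.filter (fun j => G.Adj (y j) w)).card := by
    simp only [Finset.card_filter]
    exact Finset.sum_comm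
  have hBB1 := (Finset.mem_filter.1 (h𝓗 hBH)).1
  have hBB1' := (Finset.mem_filter.1 (h𝓗 hBH')).1
  have hsum3 : ∑ w ∈ N, (J.filter (fun j => G.Adj (y j) w)).card ≤ N.card * b := by
    rw [← smul_eq_mul, ← Finset.sum_const]
    apply Finset.sum_le_sum
    intro w hw
    refine le_trans ?_ (hB.inter w B hBB1 B' hBB1' hBne)
    refine Finset.card_le_card_of_injOn y ?_ ?_
    · intro j hj
      have hj' := Finset.mem_filter.1 hj
      exact Finset.mem_filter.2 ⟨hyB j hj'.1, hj'.2.symm⟩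
    · intro j hj j' hj' heq
      by_contra hne
      exact hyinj j (Finset.mem_filter.1 hj).1 j' (Finset.mem_filter.1 hj').1 hne heq
  have hNpos : 0 < N.card := by
    have h7 : t ≤ N.card := (Finset.mem_filter.1 (h𝓗 hBH)).2.2
    omega
  have h5 : J.card * N.card ≤ (2 * n * b) * N.card := by
    calc J.card * N.card ≤ 2 * n * ∑ j ∈ J, (N.filter (G.Adj (y j))).card := hsum1
      _ ≤ 2 * n * (N.card * b) := by
          rw [hsum2]
          exact Nat.mul_le_mul_left _ hsum3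
      _ = (2 * n * b) * N.card := by ring
  have h6 : J.card ≤ 2 * n * b := Nat.le_of_mul_le_mul_right h5 hNpos
  omega

theorem caseA2 {G : SimpleGraph V} {𝓑 : Finset (Finset V)} {b c : ℕ} {s : ℕ → ℕ}
    (hB : BlockSys G 𝓑 b c s) {p : ℕ → ℕ} {n : ℕ} {S : Finset V}
    (hfree : ¬ ∃ φ, IsCopy G p (n + 1) φ ∧ ∀ i < n + 1, φ i ∈ S) {x : V} {M : ℕ}
    (hD : Disj G p n S x M) {t : ℕ} (ht : 1 ≤ t) (hM : s t ≤ M) :
    (Light G 𝓑 S t x).card ≤ M * n + n ^ M * s t := by
  by_contra hcon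
  push Not at hcon
  obtain ⟨φ, hφ1, hφ2⟩ := hD
  set Im := (Finset.range M ×ˢ Finset.range n).image (fun q => φ q.1 q.2) with hIm
  have hImc : Im.card ≤ M * n := by
    refine le_trans Finset.card_image_le ?_
    rw [Finset.card_product, Finset.card_range, Finset.card_range]
  set L := (Light G 𝓑 S t x) \ Im with hL
  have hLc : n ^ M * s t < L.card := by
    have h1 : (Light G 𝓑 S t x).card - Im.card ≤ L.card :=
      Finset.le_card_sdiff Im (Light G 𝓑 S t x)
    omega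
  have hchoice : ∀ w ∈ L, ∀ j < M, ∃ i < n, i ≠ p n ∧ G.Adj (φ j i) w := by
    intro w hw j hj
    obtain ⟨h1, h2, h3⟩ := hφ1 j hj
    obtain ⟨hw1, hw2⟩ := Finset.mem_sdiff.1 hw
    obtain ⟨hwS, hwx, -⟩ := Finset.mem_filter.1 hw1
    apply ext_copy hfree h1 h2 hwS (by rw [h3]; exact hwx)
    intro i hi heq
    apply hw2
    rw [hIm]
    exact Finset.mem_image.2 ⟨(j, i), by simp [hj, hi], heq⟩
  choose! f hf1 hf2 hf3 using hchoice
  have hmaps : ∀ w ∈ L, (fun j : Fin M => f w j) ∈ Fintype.piFinset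
      (fun _ : Fin M => Finset.range n) := by
    intro w hw
    rw [Fintype.mem_piFinset]
    intro j
    exact Finset.mem_range.2 (hf1 w hw j j.2)
  have hcard : (Fintype.piFinset (fun _ : Fin M => Finset.range n)).card * (s t) < L.card := by
    rw [Fintype.card_piFinset]
    simpa using hLc
  obtain ⟨g, hg, hfib⟩ :=
    Finset.exists_lt_card_fiber_of_mul_lt_card_of_maps_to hmaps hcard
  rw [Fintype.mem_piFinset] at hg
  set W := L.filter (fun w => (fun j : Fin M => f w j) = g) with hW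
  have hWg : ∀ w ∈ W, ∀ j : Fin M, f w j = g j := by
    intro w hw j
    have := (Finset.mem_filter.1 hw).2
    exact congrFun this j
  have hWL : ∀ w ∈ W, w ∈ L := fun w hw => (Finset.mem_filter.1 hw).1
  have hWne : W.Nonempty := Finset.card_pos.1 (by omega)
  obtain ⟨w0, hw0⟩ := hWne
  set Y : Finset V := Finset.univ.image (fun j : Fin M => φ j (g j)) with hY
  have hYc : Y.card = M := by
    rw [hY, Finset.card_image_of_injective, Finset.card_univ, Fintype.card_fin]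
    intro j j' heq
    by_contra hne
    have e1 := hWg w0 hw0 j
    have e2 := hWg w0 hw0 j'
    have hne' : (j : ℕ) ≠ (j' : ℕ) := fun h => hne (Fin.ext h)
    have hl := hWL w0 hw0
    simp only at heq
    rw [← e1, ← e2] at heq
    rcases lt_or_gt_of_ne hne' with h | h
    · exact hφ2 j' j'.2 j h _ (hf1 w0 hl j' j'.2) _ (hf1 w0 hl j j.2)
        (hf2 w0 hl j' j'.2) (hf2 w0 hl j j.2) heq.symm
    · exact hφ2 j j.2 j' h _ (hf1 w0 hl j j.2) _ (hf1 w0 hl j' j'.2)
        (hf2 w0 hl j j.2) (hf2 w0 hl j' j'.2) heq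
  have hadj : ∀ x' ∈ insert x Y, ∀ w ∈ W, G.Adj x' w := by
    intro x' hx' w hw
    rcases Finset.mem_insert.1 hx' with h | h
    · subst h
      exact ((Finset.mem_filter.1 (Finset.mem_sdiff.1 (hWL w hw)).1).2).1
    · rw [hY] at h
      obtain ⟨j, -, rfl⟩ := Finset.mem_image.1 h
      have := hf3 w (hWL w hw) j j.2
      rw [hWg w hw j] at this
      exact this
  obtain ⟨B, hB1, hxB, htB⟩ := hB.biclique t (insert x Y) W
    (le_trans hM (by rw [← hYc]; exact Finset.card_le_card (Finset.subset_insert _ _)))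
    (le_of_lt hfib) hadj x (Finset.mem_insert_self _ _)
  have hheavy : B ∈ Heavy G 𝓑 S t x := by
    refine Finset.mem_filter.2 ⟨hB1, hxB, le_trans htB (Finset.card_le_card ?_)⟩
    intro w hw
    obtain ⟨hwW, hwB⟩ := Finset.mem_inter.1 hw
    have hw1 := (Finset.mem_sdiff.1 (hWL w hwW)).1
    obtain ⟨hwS, hwx, -⟩ := Finset.mem_filter.1 hw1
    exact Finset.mem_filter.2 ⟨Finset.mem_inter.2 ⟨hwS, hwB⟩, hwx⟩
  have hne : (W ∩ B).Nonempty := Finset.card_pos.1 (by omega)
  obtain ⟨w, hw⟩ := hne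
  obtain ⟨hwW, hwB⟩ := Finset.mem_inter.1 hw
  have hw1 := (Finset.mem_sdiff.1 (hWL w hwW)).1
  obtain ⟨-, -, hw3⟩ := Finset.mem_filter.1 hw1
  exact hw3 B hheavy hwB

end Pool.Agent.GSBlocks
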