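import Pool.Agent.GSBlocks.CaseA

set_option autoImplicit false

namespace Pool.Agent.GSBlocks

open Finset Classical

variable {V : Type*}

/-- `v` is the root of a depth-`k` structure with block `B`. -/
def Rooted (G : SimpleGraph V) (𝓑 : Finset (Finset V)) (S VB : Finset V) (t t2 : ℕ) :
    ℕ → V → Finset V → Prop
  | 0, v, B => v ∈ VB ∧ B = ∅
  | k + 1, v, B => v ∈ VB ∧ B ∈ Heavy G 𝓑 S t v ∧ ∃ A : Finset V, t2 ≤ A.card ∧
      (∀ u ∈ A, ∀ u' ∈ A, ¬ G.Adj u u') ∧
      ∀ u ∈ A, G.Adj v u ∧ u ∈ B ∧ ∃ B', B' ≠ B ∧ Rooted G 𝓑 S VB t t2 k u B'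

/-- The state of the embedding procedure. -/
structure St (G : SimpleGraph V) (𝓑 : Finset (Finset V)) (S VB : Finset V) (t t2 : ℕ)
    (p : ℕ → ℕ) (n i : ℕ) (φ : ℕ → V) (β : ℕ → Finset V) (m : ℕ → ℕ) (A : ℕ → Finset V) :
    Prop where
  vb : ∀ j < i, φ j ∈ VB
  lvl : ∀ j < i, n + 1 ≤ m j + j
  hv : ∀ j < i, β j ∈ Heavy G 𝓑 S t (φ j)
  ch : ∀ j < i, t2 ≤ (A j).card ∧ (∀ u ∈ A j, ∀ u' ∈ A j, ¬ G.Adj u u') ∧
      ∀ u ∈ A j, G.Adj (φ j) u ∧ u ∈ β j ∧ ∃ B', B' ≠ β j ∧
        Rooted G 𝓑 S VB t t2 (m j - 1) u B'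
  mem : ∀ j < i, 0 < j → φ j ∈ A (p j)
  cp : IsCopy G p i φ
  sep : ∀ z < i, ∀ z' < i, z ≠ z' → β z' ∈ Heavy G 𝓑 S t (φ z) → 0 < z ∧ p z = z'

theorem rooted_mem {G : SimpleGraph V} {𝓑 : Finset (Finset V)} {S VB : Finset V} {t t2 k : ℕ}
    {v : V} {B : Finset V} (h : Rooted G 𝓑 S VB t t2 k v B) : v ∈ VB := by
  cases k with
  | zero => exact h.1
  | succ k => exact h.1

theorem st_step {G : SimpleGraph V} {𝓑 : Finset (Finset V)} {b c : ℕ} {s : ℕ → ℕ}
    (hB : BlockSys G 𝓑 b c s) {p : ℕ → ℕ} (hp : ∀ i, 0 < i → p i < i) {S VB : Finset V}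
    (hVS : VB ⊆ S) {n t t2 : ℕ} (hVB : ∀ v ∈ VB, (Heavy G 𝓑 S t v).card ≤ n)
    (ht2 : (n + 1) * (1 + (b + t) + b + n * b) < t2)
    {i : ℕ} (hi1 : 1 ≤ i) (hin : i ≤ n) {φ : ℕ → V} {β : ℕ → Finset V} {m : ℕ → ℕ}
    {A : ℕ → Finset V} (h : St G 𝓑 S VB t t2 p n i φ β m A) :
    ∃ φ' β' m' A', St G 𝓑 S VB t t2 p n (i + 1) φ' β' m' A' := by
  set a := p i with ha
  have hai : a < i := hp i hi1
  have hBm : ∀ z < i, β z ∈ 𝓑 := fun z hz => (Finset.mem_filter.1 (h.hv z hz)).1
  have hβne : ∀ z < i, z ≠ a → β a ≠ β z := by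
    intro z hz hza heq
    have h1 := h.sep z hz a hai hza (by rw [heq]; exact h.hv z hz)
    have h2 := h.sep a hai z hz (Ne.symm hza) (by rw [← heq]; exact h.hv a hai)
    have h3 := hp z h1.1
    have h4 := hp a h2.1
    omega
  set Bad : ℕ → Finset V := fun z =>
    ({φ z} ∪ (if z = a ∨ (0 < z ∧ p z = a) then ∅ else (S ∩ β a).filter (G.Adj (φ z)))) ∪
      (if z = a then ∅ else (β a ∩ β z).filter (G.Adj (φ a))) ∪
      ((Heavy G 𝓑 S t (φ z)).filter (fun B' => B' ≠ β a)).biUnion
        (fun B' => (β a ∩ B').filter (G.Adj (φ a))) with hBad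
  have hBadc : ∀ z < i, (Bad z).card ≤ 1 + (b + t) + b + n * b := by
    intro z hz
    rw [hBad]
    simp only
    refine le_trans (Finset.card_union_le _ _) ?_
    apply Nat.add_le_add
    · refine le_trans (Finset.card_union_le _ _) ?_
      apply Nat.add_le_add
      · refine le_trans (Finset.card_union_le _ _) ?_
        apply Nat.add_le_add
        · simp
        · split_ifs with hif
          · simp
          · push Not at hif
            have hnh : β a ∉ Heavy G 𝓑 S t (φ z) := by
              intro hh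
              have h1 := h.sep z hz a hai hif.1 hh
              exact hif.2 h1.1 h1.2
            by_cases hzB : φ z ∈ β a
            · have : ¬ t ≤ ((S ∩ β a).filter (G.Adj (φ z))).card := by
                intro hle
                exact hnh (Finset.mem_filter.2 ⟨hBm a hai, hzB, hle⟩)
              omega
            · have h1 := hB.out (β a) (hBm a hai) (φ z) hzB
              have h2 : ((S ∩ β a).filter (G.Adj (φ z))).card ≤
                  ((β a).filter (G.Adj (φ z))).card :=
                Finset.card_le_card (Finset.filter_subset_filter _ Finset.inter_subset_right)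
              omega
      · split_ifs with hif
        · simp
        · exact hB.inter (φ a) (β a) (hBm a hai) (β z) (hBm z hz) (hβne z hz hif)
    · refine le_trans Finset.card_biUnion_le ?_
      refine le_trans (Finset.sum_le_card_nsmul _ _ b ?_) ?_
      · intro B' hB'
        obtain ⟨h1, h2⟩ := Finset.mem_filter.1 hB'
        exact hB.inter (φ a) (β a) (hBm a hai) B' (Finset.mem_filter.1 h1).1 (Ne.symm h2)
      · rw [smul_eq_mul]
        apply Nat.mul_le_mul_right
        exact le_trans (Finset.card_filter_le _ _) (hVB _ (h.vb z hz))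
  have hBadall : ((Finset.range i).biUnion Bad).card < (A a).card := by
    have h1 : ((Finset.range i).biUnion Bad).card ≤ i * (1 + (b + t) + b + n * b) := by
      refine le_trans Finset.card_biUnion_le ?_
      refine le_trans (Finset.sum_le_card_nsmul _ _ (1 + (b + t) + b + n * b) ?_) ?_
      · intro z hz
        exact hBadc z (Finset.mem_range.1 hz)
      · rw [smul_eq_mul, Finset.card_range]
    have h2 : i * (1 + (b + t) + b + n * b) ≤ (n + 1) * (1 + (b + t) + b + n * b) :=
      Nat.mul_le_mul_right _ (by omega)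
    have h3 := (h.ch a hai).1
    omega
  obtain ⟨u, huA, huBad⟩ := Finset.exists_mem_notMem_of_card_lt_card hBadall
  obtain ⟨hAc, hAind, hAall⟩ := h.ch a hai
  obtain ⟨hadj, huβ, B', hB'ne, hroot⟩ := hAall u huA
  have hlvla := h.lvl a hai
  obtain ⟨k, hk⟩ : ∃ k, m a - 1 = k + 1 := ⟨m a - 2, by omega⟩
  have hroot' := hroot
  rw [hk] at hroot
  obtain ⟨huVB, hB'H, A', hA'c, hA'ind, hA'all⟩ := hroot
  have huS : u ∈ S := hVS huVB
  have huB' : u ∈ B' := (Finset.mem_filter.1 hB'H).2.1
  have hnotBad : ∀ z < i, u ∉ Bad z := by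
    intro z hz hu
    exact huBad (Finset.mem_biUnion.2 ⟨z, Finset.mem_range.2 hz, hu⟩)
  -- consequences
  have hc1 : ∀ z < i, u ≠ φ z := by
    intro z hz heq
    apply hnotBad z hz
    rw [hBad]
    simp only [Finset.mem_union]
    left; left; left
    rw [heq]
    exact Finset.mem_singleton_self _
  have hc2 : ∀ z < i, z ≠ a → ¬ G.Adj u (φ z) := by
    intro z hz hza hadj'
    by_cases hch : 0 < z ∧ p z = a
    · have hzA := h.mem z hz hch.1
      rw [hch.2] at hzA
      exact hAind u huA (φ z) hzA hadj'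
    · apply hnotBad z hz
      rw [hBad]
      simp only [Finset.mem_union]
      left; left; right
      rw [if_neg (by push Not; exact ⟨hza, fun h1 h2 => hch ⟨h1, h2⟩⟩)]
      exact Finset.mem_filter.2 ⟨Finset.mem_inter.2 ⟨huS, huβ⟩, hadj'.symm⟩
  have hc3 : ∀ z < i, z ≠ a → u ∉ β z := by
    intro z hz hza hu
    apply hnotBad z hz
    rw [hBad]
    simp only [Finset.mem_union]
    left; right
    rw [if_neg hza]
    exact Finset.mem_filter.2 ⟨Finset.mem_inter.2 ⟨huβ, hu⟩, hadj⟩
  have hc4 : ∀ z < i, B' ∉ Heavy G 𝓑 S t (φ z) := by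
    intro z hz hH
    apply hnotBad z hz
    rw [hBad]
    simp only [Finset.mem_union]
    right
    rw [Finset.mem_biUnion]
    exact ⟨B', Finset.mem_filter.2 ⟨hH, hB'ne⟩,
      Finset.mem_filter.2 ⟨Finset.mem_inter.2 ⟨huβ, huB'⟩, hadj⟩⟩
  refine ⟨Function.update φ i u, Function.update β i B', Function.update m i (k + 1),
    Function.update A i A', ?_, ?_, ?_, ?_, ?_, ?_, ?_⟩
  · intro j hj
    by_cases hji : j = i
    · subst hji; rw [Function.update_self]; exact huVB
    · rw [Function.update_of_ne hji]; exact h.vb j (by omega)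
  · intro j hj
    by_cases hji : j = i
    · subst hji; rw [Function.update_self]; omega
    · rw [Function.update_of_ne hji]; exact h.lvl j (by omega)
  · intro j hj
    by_cases hji : j = i
    · subst hji; rw [Function.update_self, Function.update_self]; exact hB'H
    · rw [Function.update_of_ne hji, Function.update_of_ne hji]; exact h.hv j (by omega)
  · intro j hj
    by_cases hji : j = i
    · subst hji
      rw [Function.update_self, Function.update_self, Function.update_self, Function.update_self]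
      exact ⟨hA'c, hA'ind, hA'all⟩
    · rw [Function.update_of_ne hji, Function.update_of_ne hji, Function.update_of_ne hji,
        Function.update_of_ne hji]
      exact h.ch j (by omega)
  · intro j hj hj0
    by_cases hji : j = i
    · subst hji
      rw [Function.update_self, ← ha, Function.update_of_ne (by omega : a ≠ j)]
      exact huA
    · have hpj : p j ≠ i := by
        have := hp j hj0
        omega
      rw [Function.update_of_ne hji, Function.update_of_ne hpj]
      exact h.mem j (by omega) hj0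
  · intro j hj j' hj'
    have hj'i : j' ≠ i := by omega
    rw [Function.update_of_ne hj'i]
    by_cases hji : j = i
    · subst hji
      rw [Function.update_self]
      refine ⟨hc1 j' hj', ?_, ?_⟩
      · intro hadj'
        by_contra hne
        exact hc2 j' hj' hne hadj'
      · intro heq
        rw [heq]
        exact hadj.symm
    · rw [Function.update_of_ne hji]
      exact h.cp j (by omega) j' hj'
  · intro z hz z' hz' hzz' hH
    by_cases hzi : z = i
    · subst hzi
      have hz'i : z' ≠ z := Ne.symm hzz'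
      rw [Function.update_of_ne hz'i, Function.update_self] at hH
      refine ⟨hi1, ?_⟩
      by_contra hne
      exact hc3 z' (by omega) (fun h' => hne (by rw [h'])) (Finset.mem_filter.1 hH).2.1
    · rw [Function.update_of_ne hzi] at hH
      by_cases hz'i : z' = i
      · subst hz'i
        rw [Function.update_self] at hH
        exact absurd hH (hc4 z (by omega))
      · rw [Function.update_of_ne hz'i] at hH
        exact h.sep z (by omega) z' (by omega) hzz' hH

theorem embed {G : SimpleGraph V} {𝓑 : Finset (Finset V)} {b c : ℕ} {s : ℕ → ℕ}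
    (hB : BlockSys G 𝓑 b c s) {p : ℕ → ℕ} (hp : ∀ i, 0 < i → p i < i) {S VB : Finset V}
    (hVS : VB ⊆ S) {n t t2 : ℕ} (hVB : ∀ v ∈ VB, (Heavy G 𝓑 S t v).card ≤ n)
    (ht2 : (n + 1) * (1 + (b + t) + b + n * b) < t2) {v0 : V} {B0 : Finset V}
    (h0 : Rooted G 𝓑 S VB t t2 (n + 1) v0 B0) :
    ∃ φ, IsCopy G p (n + 1) φ ∧ ∀ i < n + 1, φ i ∈ S := by
  obtain ⟨hv0, hB0, A0, hA0c, hA0ind, hA0all⟩ := h0
  have key : ∀ i, 1 ≤ i → i ≤ n + 1 →
      ∃ φ β m A, St G 𝓑 S VB t t2 p n i φ β m A := by
    intro i hi1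
    induction i, hi1 using Nat.le_induction with
    | base =>
      intro _
      refine ⟨fun _ => v0, fun _ => B0, fun _ => n + 1, fun _ => A0, ?_, ?_, ?_, ?_, ?_, ?_, ?_⟩
      · intro j _; exact hv0
      · intro j _; omega
      · intro j _; exact hB0
      · intro j _; exact ⟨hA0c, hA0ind, hA0all⟩
      · intro j hj hj0; omega
      · intro j hj j' hj'; omega
      · intro z hz z' hz' hne; omega
    | succ i hi ih =>
      intro hin
      obtain ⟨φ, β, m, A, hSt⟩ := ih (by omega)
      exact st_step hB hp hVS hVB ht2 hi (by omega) hSt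
  obtain ⟨φ, β, m, A, hSt⟩ := key (n + 1) (by omega) le_rfl
  exact ⟨φ, hSt.cp, fun i hi => hVS (hSt.vb i hi)⟩

end Pool.Agent.GSBlocks
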