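import Mathlib

set_option autoImplicit false

namespace Pool.Agent.GSBlocks

open Finset Classical

variable {V : Type*}

/-- `S` can be properly coloured with `n` colours. -/
def ColOn (G : SimpleGraph V) (S : Finset V) (n : ℕ) : Prop :=
  ∃ C : V → ℕ, (∀ v ∈ S, C v < n) ∧ ∀ u ∈ S, ∀ v ∈ S, G.Adj u v → C u ≠ C v

theorem ColOn.mono {G : SimpleGraph V} {S S' : Finset V} {n n' : ℕ} (h : ColOn G S n)
    (hS : S' ⊆ S) (hn : n ≤ n') : ColOn G S' n' := by
  obtain ⟨C, h1, h2⟩ := h
  exact ⟨C, fun v hv => lt_of_lt_of_le (h1 v (hS hv)) hn,
    fun u hu v hv => h2 u (hS hu) v (hS hv)⟩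

theorem ColOn.union {G : SimpleGraph V} {S S' : Finset V} {n n' : ℕ} (h : ColOn G S n)
    (h' : ColOn G S' n') : ColOn G (S ∪ S') (n + n') := by
  obtain ⟨C, h1, h2⟩ := h
  obtain ⟨C', h1', h2'⟩ := h'
  refine ⟨fun v => if v ∈ S then C v else n + C' v, ?_, ?_⟩
  · intro v hv
    by_cases hvS : v ∈ S
    · simp only [hvS, if_true]
      have := h1 v hvS
      omega
    · simp only [hvS, if_false]
      have hv' : v ∈ S' := by
        rcases Finset.mem_union.1 hv with h | h
        · exact absurd h hvS
        · exact h
      have := h1' v hv'
      omega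
  · intro u hu v hv huv
    by_cases huS : u ∈ S <;> by_cases hvS : v ∈ S
    · simp only [huS, hvS, if_true]
      exact h2 u huS v hvS huv
    · simp only [huS, hvS, if_true, if_false]
      have := h1 u huS
      omega
    · simp only [huS, hvS, if_true, if_false]
      have := h1 v hvS
      omega
    · simp only [huS, hvS, if_false]
      have hu' : u ∈ S' := by
        rcases Finset.mem_union.1 hu with h | h
        · exact absurd h huS
        · exact h
      have hv' : v ∈ S' := by
        rcases Finset.mem_union.1 hv with h | h
        · exact absurd h hvS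
        · exact h
      have := h2' u hu' v hv' huv
      omega

/-- Colouring by parts. -/
theorem ColOn.of_parts {G : SimpleGraph V} {S : Finset V} {q n : ℕ} (c : V → ℕ)
    (hc : ∀ v ∈ S, c v < q) (h : ∀ j < q, ColOn G (S.filter (fun v => c v = j)) n) :
    ColOn G S (q * n) := by
  choose! C hC1 hC2 using h
  refine ⟨fun v => c v * n + C (c v) v, ?_, ?_⟩
  · intro v hv
    have h1 := hc v hv
    have h2 := hC1 (c v) h1 v (by simp [hv])
    calc c v * n + C (c v) v < c v * n + n := by omega
      _ = (c v + 1) * n := by ring
      _ ≤ q * n := Nat.mul_le_mul_right _ h1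
  · intro u hu v hv huv heq
    have hu1 := hc u hu
    have hv1 := hc v hv
    have hu2 := hC1 (c u) hu1 u (by simp [hu])
    have hv2 := hC1 (c v) hv1 v (by simp [hv])
    have hcc : c u = c v := by
      have e1 : (c u * n + C (c u) u) / n = c u := by
        rw [mul_comm, Nat.mul_add_div (by omega), Nat.div_eq_of_lt hu2]; rfl
      have e2 : (c v * n + C (c v) v) / n = c v := by
        rw [mul_comm, Nat.mul_add_div (by omega), Nat.div_eq_of_lt hv2]; rfl
      have e3 : (c u * n + C (c u) u) / n = (c v * n + C (c v) v) / n := by
        simp only at heq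
        rw [heq]
      omega
    have := hC2 (c u) hu1 u (by simp [hu]) v (by simp [hv, hcc]) huv
    apply this
    simp only [hcc] at heq ⊢
    omega

/-- A digraph with out-degrees at most `q` on a finite set is `(2q+1)`-colourable. -/
theorem orient_color (q : ℕ) (D : V → Finset V) (S : Finset V)
    (hD : ∀ v ∈ S, (D v).card ≤ q) :
    ∃ C : V → ℕ, (∀ v, C v < 2 * q + 1) ∧
      ∀ v ∈ S, ∀ u ∈ S, u ∈ D v → u ≠ v → C u ≠ C v := by
  induction S using Finset.strongInduction with
  | H S ih =>
    rcases S.eq_empty_or_nonempty with rfl | hne
    · exact ⟨fun _ => 0, by intro v; simp, by simp⟩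
    · obtain ⟨v, hvS, hv⟩ : ∃ v ∈ S, (S.filter (fun u => v ∈ D u)).card ≤ q := by
        by_contra hcon
        push Not at hcon
        have h1 : ∑ v ∈ S, q < ∑ v ∈ S, (S.filter (fun u => v ∈ D u)).card :=
          Finset.sum_lt_sum_of_nonempty hne hcon
        have h2 : ∑ v ∈ S, (S.filter (fun u => v ∈ D u)).card
            = ∑ u ∈ S, (S.filter (fun v => v ∈ D u)).card := by
          simp only [Finset.card_filter]
          exact Finset.sum_comm
        have h3 : ∑ u ∈ S, (S.filter (fun v => v ∈ D u)).card ≤ ∑ u ∈ S, q := by
          apply Finset.sum_le_sum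
          intro u hu
          refine le_trans (Finset.card_le_card ?_) (hD u hu)
          intro w hw
          exact (Finset.mem_filter.1 hw).2
        omega
      obtain ⟨C, hC1, hC2⟩ := ih (S.erase v) (Finset.erase_ssubset hvS)
        (fun w hw => hD w (Finset.mem_of_mem_erase hw))
      -- forbidden colours
      set F : Finset ℕ := ((D v) ∪ (S.filter (fun u => v ∈ D u))).image C with hF
      have hFc : F.card ≤ 2 * q := by
        refine le_trans Finset.card_image_le ?_
        refine le_trans (Finset.card_union_le _ _) ?_
        have := hD v hvS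
        omega
      obtain ⟨a, ha, haF⟩ : ∃ a ∈ Finset.range (2 * q + 1), a ∉ F := by
        by_contra hcon
        push Not at hcon
        have := Finset.card_le_card (show Finset.range (2 * q + 1) ⊆ F from fun x hx => hcon x hx)
        rw [Finset.card_range] at this
        omega
      refine ⟨Function.update C v a, ?_, ?_⟩
      · intro w
        by_cases hw : w = v
        · subst hw
          simpa using ha
        · rw [Function.update_of_ne hw]
          exact hC1 w
      · intro x hx u hu hux hne'
        by_cases hxv : x = v
        · subst hxv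
          rw [Function.update_of_ne hne', Function.update_self]
          intro h
          apply haF
          rw [hF, ← h]
          exact Finset.mem_image_of_mem C (Finset.mem_union_left _ hux)
        · by_cases huv : u = v
          · subst huv
            rw [Function.update_of_ne hxv, Function.update_self]
            intro h
            apply haF
            rw [hF, h]
            exact Finset.mem_image_of_mem C
              (Finset.mem_union_right _ (Finset.mem_filter.2 ⟨hx, hux⟩))
          · rw [Function.update_of_ne hxv, Function.update_of_ne huv]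
            exact hC2 x (Finset.mem_erase.2 ⟨hxv, hx⟩) u (Finset.mem_erase.2 ⟨huv, hu⟩) hux hne'

end Pool.Agent.GSBlocks
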