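import Pool.Agent.GSBlocks.Color

set_option autoImplicit false

namespace Pool.Agent.GSBlocks

open Finset Classical

variable {V : Type*}

/-- An induced copy of the tree with parent function `p` on the vertices `0, …, n-1`. -/
def IsCopy (G : SimpleGraph V) (p : ℕ → ℕ) (n : ℕ) (φ : ℕ → V) : Prop :=
  ∀ i < n, ∀ j < i, φ i ≠ φ j ∧ (G.Adj (φ i) (φ j) ↔ j = p i)

/-- A block system. -/
structure BlockSys (G : SimpleGraph V) (𝓑 : Finset (Finset V)) (b c : ℕ) (s : ℕ → ℕ) : Prop where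
  inter : ∀ v : V, ∀ B ∈ 𝓑, ∀ B' ∈ 𝓑, B ≠ B' → ((B ∩ B').filter (G.Adj v)).card ≤ b
  out : ∀ B ∈ 𝓑, ∀ v : V, v ∉ B → (B.filter (G.Adj v)).card ≤ b
  biclique : ∀ t : ℕ, ∀ X Y : Finset V, s t ≤ X.card → s t ≤ Y.card →
    (∀ x ∈ X, ∀ y ∈ Y, G.Adj x y) → ∀ x ∈ X, ∃ B ∈ 𝓑, x ∈ B ∧ t ≤ (Y ∩ B).card
  chi : ∀ B ∈ 𝓑, ColOn G B c

/-- The heavy blocks of a vertex `v`, relative to `S`. -/
noncomputable def Heavy (G : SimpleGraph V) (𝓑 : Finset (Finset V)) (S : Finset V) (t : ℕ) (v : V) :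
    Finset (Finset V) :=
  𝓑.filter (fun B => v ∈ B ∧ t ≤ ((S ∩ B).filter (G.Adj v)).card)

/-- The light neighbours. -/
noncomputable def Light (G : SimpleGraph V) (𝓑 : Finset (Finset V)) (S : Finset V) (t : ℕ) (v : V) :
    Finset V :=
  S.filter (fun w => G.Adj v w ∧ ∀ B ∈ Heavy G 𝓑 S t v, w ∉ B)

theorem ext_copy {G : SimpleGraph V} {p : ℕ → ℕ} {n : ℕ} {S : Finset V}
    (hfree : ¬ ∃ φ, IsCopy G p (n + 1) φ ∧ ∀ i < n + 1, φ i ∈ S)
    {φ : ℕ → V} (hφ : IsCopy G p n φ) (hS : ∀ i < n, φ i ∈ S) {w : V} (hw : w ∈ S)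
    (hadj : G.Adj (φ (p n)) w) (hne : ∀ i < n, φ i ≠ w) :
    ∃ i < n, i ≠ p n ∧ G.Adj (φ i) w := by
  by_contra hcon
  push Not at hcon
  apply hfree
  refine ⟨Function.update φ n w, ?_, ?_⟩
  · intro i hi j hj
    have hjn : j ≠ n := by omega
    rw [Function.update_of_ne hjn]
    by_cases hin : i = n
    · subst hin
      rw [Function.update_self]
      refine ⟨fun h => hne j hj h.symm, ?_, ?_⟩
      · intro h
        by_contra hj'
        exact hcon j hj hj' h.symm
      · intro h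
        subst h
        exact hadj.symm
    · rw [Function.update_of_ne hin]
      exact hφ i (by omega) j hj
  · intro i hi
    by_cases hin : i = n
    · subst hin
      rw [Function.update_self]
      exact hw
    · rw [Function.update_of_ne hin]
      exact hS i (by omega)

/-- `M` copies of the tree rooted at `x`, disjoint off the root. -/
def Disj (G : SimpleGraph V) (p : ℕ → ℕ) (n : ℕ) (S : Finset V) (x : V) (M : ℕ) : Prop :=
  ∃ φ : ℕ → ℕ → V, (∀ j < M, IsCopy G p n (φ j) ∧ (∀ i < n, φ j i ∈ S) ∧ φ j (p n) = x) ∧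
    ∀ j < M, ∀ j' < j, ∀ i < n, ∀ i' < n, i ≠ p n → i' ≠ p n → φ j i ≠ φ j' i'

theorem hitting {G : SimpleGraph V} {p : ℕ → ℕ} {n : ℕ} {S : Finset V} {x : V} (M : ℕ)
    (h : ¬ Disj G p n S x M) :
    ∃ H : Finset V, H.card ≤ M * n ∧ ∀ ψ, IsCopy G p n ψ → (∀ i < n, ψ i ∈ S) → ψ (p n) = x →
      ∃ i < n, i ≠ p n ∧ ψ i ∈ H := by
  induction M with
  | zero =>
    exfalso
    exact h ⟨fun _ _ => x, by simp, by simp⟩
  | succ M ih =>
    by_cases hM : Disj G p n S x M
    · obtain ⟨φ, h1, h2⟩ := hM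
      refine ⟨(Finset.range M ×ˢ Finset.range n).image (fun q => φ q.1 q.2), ?_, ?_⟩
      · refine le_trans Finset.card_image_le ?_
        rw [Finset.card_product, Finset.card_range, Finset.card_range]
        exact Nat.mul_le_mul_right _ (Nat.le_succ M)
      · intro ψ hψ hψS hψx
        by_contra hcon
        push Not at hcon
        apply h
        refine ⟨Function.update φ M ψ, ?_, ?_⟩
        · intro j hj
          by_cases hjM : j = M
          · subst hjM
            rw [Function.update_self]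
            exact ⟨hψ, hψS, hψx⟩
          · rw [Function.update_of_ne hjM]
            exact h1 j (by omega)
        · intro j hj j' hj' i hi i' hi' hir hir'
          have hj'M : j' ≠ M := by omega
          rw [Function.update_of_ne hj'M]
          by_cases hjM : j = M
          · subst hjM
            rw [Function.update_self]
            intro heq
            apply hcon i hi hir
            rw [heq]
            exact Finset.mem_image.2 ⟨(j', i'), by simp [hj', hi'], rfl⟩
          · rw [Function.update_of_ne hjM]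
            exact h2 j (by omega) j' hj' i hi i' hi' hir hir'
    · obtain ⟨H, hH1, hH2⟩ := ih hM
      exact ⟨H, le_trans hH1 (Nat.mul_le_mul_right _ (Nat.le_succ M)), hH2⟩

/-- Splitting into classes without copies. -/
theorem split_classes {G : SimpleGraph V} {p : ℕ → ℕ} {n : ℕ} {S A : Finset V} (M : ℕ)
    (hn : p n < n) (hAS : A ⊆ S) (h : ∀ x ∈ A, ¬ Disj G p n S x M) :
    ∃ C : V → ℕ, (∀ v, C v < 2 * (M * n) + 1) ∧
      ∀ j, ¬ ∃ φ, IsCopy G p n φ ∧ ∀ i < n, φ i ∈ A.filter (fun v => C v = j) := by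
  choose! H hH1 hH2 using fun x (hx : x ∈ A) => hitting M (h x hx)
  obtain ⟨C, hC1, hC2⟩ := orient_color (M * n) H A hH1
  refine ⟨C, hC1, ?_⟩
  rintro j ⟨φ, hφ, hφA⟩
  have hx := Finset.mem_filter.1 (hφA (p n) hn)
  obtain ⟨i, hi, hir, hiH⟩ := hH2 (φ (p n)) hx.1 φ hφ
    (fun i hi => hAS (Finset.mem_filter.1 (hφA i hi)).1) rfl
  have hiA := Finset.mem_filter.1 (hφA i hi)
  have hne : φ i ≠ φ (p n) := by
    rcases lt_or_gt_of_ne hir with h | h
    · exact fun heq => (hφ (p n) hn i h).1 heq.symm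
    · exact (hφ i hi (p n) h).1
  have := hC2 (φ (p n)) hx.1 (φ i) hiA.1 hiH hne
  exact this (by rw [hiA.2, hx.2])

end Pool.Agent.GSBlocks
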