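import Pool.Agent.GSBlocks.Main

set_option autoImplicit false

namespace Pool.Agent.GSBlocks

open Finset Classical

universe u v

theorem exists_leaf {W : Type u} (F : SimpleGraph W) (hF : F.IsAcyclic) (A : Finset W)
    (hA : A.Nonempty) : ∃ v ∈ A, ∀ u ∈ A, ∀ w ∈ A, F.Adj v u → F.Adj v w → u = w := by
  by_cases hcard : A.card ≤ 1
  · obtain ⟨v, hv⟩ := hA
    refine ⟨v, hv, fun u hu w hw _ _ => ?_⟩
    exact Finset.card_le_one.1 hcard u hu w hw
  · push Not at hcard
    have hnt : Nontrivial (A : Set W) := by
      rw [Set.nontrivial_coe_sort]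
      exact Finset.one_lt_card_iff_nontrivial.1 hcard
    obtain ⟨T, hFT, -, hT⟩ := (SimpleGraph.connected_top (V := (A : Set W))).exists_isTree_le_of_le_of_isAcyclic
      (H := F.induce (A : Set W)) le_top (hF.induce _)
    obtain ⟨v, hv⟩ := hT.exists_vert_degree_one_of_nontrivial
    rw [SimpleGraph.degree_eq_one_iff_existsUnique_adj] at hv
    obtain ⟨x, hx, hx'⟩ := hv
    refine ⟨v, v.2, fun u hu w hw h1 h2 => ?_⟩
    have e1 := hx' ⟨u, hu⟩ (hFT (show (F.induce (A : Set W)).Adj v ⟨u, hu⟩ from h1))
    have e2 := hx' ⟨w, hw⟩ (hFT (show (F.induce (A : Set W)).Adj v ⟨w, hw⟩ from h2))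
    have := e1.trans e2.symm
    exact congrArg Subtype.val this

/-- Every finite forest is an induced subgraph of a tree given by a parent function. -/
theorem forest_repr_aux {W : Type u} (F : SimpleGraph W) (hF : F.IsAcyclic) (A : Finset W) :
    ∃ (p : ℕ → ℕ) (n : ℕ) (e : W → ℕ), (∀ i, 0 < i → p i < i) ∧ Set.InjOn e A ∧
      (∀ w ∈ A, e w < n) ∧ ∀ u ∈ A, ∀ v ∈ A, F.Adj u v ↔
        (0 < e u ∧ e v = p (e u)) ∨ (0 < e v ∧ e u = p (e v)) := by
  induction A using Finset.strongInduction with
  | H A ih =>
    rcases A.eq_empty_or_nonempty with rfl | hne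
    · refine ⟨fun i => i - 1, 0, fun _ => 0, ?_, ?_, ?_, ?_⟩
      · intro i hi; simp only; omega
      · simp
      · simp
      · simp
    · obtain ⟨v, hvA, hv⟩ := exists_leaf F hF A hne
      obtain ⟨p, n, e, hp, he, hen, hadj⟩ := ih (A.erase v) (Finset.erase_ssubset hvA)
      by_cases hnb : ∃ w ∈ A, F.Adj v w
      · -- a leaf with neighbour `w`
        obtain ⟨w, hwA, hvw⟩ := hnb
        have hwv : w ≠ v := hvw.ne'
        have hwA' : w ∈ A.erase v := Finset.mem_erase.2 ⟨hwv, hwA⟩
        have hwn := hen w hwA'
        have hpi : ∀ i, i ≠ n → Function.update p n (e w) i = p i :=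
          fun i hi => Function.update_of_ne hi _ _
        have hpn : Function.update p n (e w) n = e w := Function.update_self _ _ _
        have hev : ∀ x, x ≠ v → Function.update e v n x = e x :=
          fun x hx => Function.update_of_ne hx _ _
        have hevv : Function.update e v n v = n := Function.update_self _ _ _
        refine ⟨Function.update p n (e w), n + 1, Function.update e v n, ?_, ?_, ?_, ?_⟩
        · intro i hi
          by_cases hin : i = n
          · subst hin; rw [hpn]; exact hwn
          · rw [hpi i hin]; exact hp i hi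
        · intro x hx y hy hxy
          by_cases hxv : x = v <;> by_cases hyv : y = v
          · rw [hxv, hyv]
          · exfalso
            rw [hxv, hevv, hev y hyv] at hxy
            have := hen y (Finset.mem_erase.2 ⟨hyv, hy⟩)
            omega
          · exfalso
            rw [hyv, hevv, hev x hxv] at hxy
            have := hen x (Finset.mem_erase.2 ⟨hxv, hx⟩)
            omega
          · rw [hev x hxv, hev y hyv] at hxy
            exact he (Finset.mem_erase.2 ⟨hxv, hx⟩) (Finset.mem_erase.2 ⟨hyv, hy⟩) hxy
        · intro x hx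
          by_cases hxv : x = v
          · rw [hxv, hevv]; omega
          · rw [hev x hxv]
            have := hen x (Finset.mem_erase.2 ⟨hxv, hx⟩)
            omega
        · -- adjacency
          have key : ∀ y ∈ A, y ≠ v → (F.Adj v y ↔ (0 < n ∧ e y = e w) ∨
              (0 < e y ∧ n = p (e y))) := by
            intro y hy hyv
            have hyn := hen y (Finset.mem_erase.2 ⟨hyv, hy⟩)
            constructor
            · intro h
              left
              rw [hv y hy w hwA h hvw]
              exact ⟨by omega, rfl⟩
            · rintro (⟨-, h⟩ | ⟨h1, h2⟩)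
              · have : y = w := he (Finset.mem_erase.2 ⟨hyv, hy⟩) hwA' h
                rw [this]; exact hvw
              · have := hp _ h1
                omega
          intro x hx y hy
          by_cases hxv : x = v <;> by_cases hyv : y = v
          · rw [hxv, hyv, hevv, hpn]
            constructor
            · intro h; exact absurd h (F.irrefl)
            · intro h; omega
          · have hyn := hen y (Finset.mem_erase.2 ⟨hyv, hy⟩)
            rw [hxv, hevv, hev y hyv, hpn, hpi (e y) (by omega)]
            exact key y hy hyv
          · have hxn := hen x (Finset.mem_erase.2 ⟨hxv, hx⟩)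
            rw [hyv, hevv, hev x hxv, hpn, hpi (e x) (by omega), F.adj_comm, key x hx hxv]
            exact or_comm
          · have hxn := hen x (Finset.mem_erase.2 ⟨hxv, hx⟩)
            have hyn := hen y (Finset.mem_erase.2 ⟨hyv, hy⟩)
            rw [hev x hxv, hev y hyv, hpi (e x) (by omega), hpi (e y) (by omega)]
            exact hadj x (Finset.mem_erase.2 ⟨hxv, hx⟩) y (Finset.mem_erase.2 ⟨hyv, hy⟩)
      · -- an isolated vertex
        push Not at hnb
        -- use the new vertices `m` and `m+1`, where `m = n + 1`
        set m := n + 1 with hm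
        have hpm : Function.update (Function.update p m 0) (m + 1) m (m + 1) = m :=
          Function.update_self _ _ _
        have hpi : ∀ i, i < m → Function.update (Function.update p m 0) (m + 1) m i = p i := by
          intro i hi
          rw [Function.update_of_ne (by omega), Function.update_of_ne (by omega)]
        have hev : ∀ x, x ≠ v → Function.update e v (m + 1) x = e x :=
          fun x hx => Function.update_of_ne hx _ _
        have hevv : Function.update e v (m + 1) v = m + 1 := Function.update_self _ _ _
        refine ⟨Function.update (Function.update p m 0) (m + 1) m, m + 2,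
          Function.update e v (m + 1), ?_, ?_, ?_, ?_⟩
        · intro i hi
          by_cases hi1 : i = m + 1
          · rw [hi1, hpm]; omega
          · by_cases hi2 : i = m
            · rw [hi2, Function.update_of_ne (by omega), Function.update_self]; omega
            · rw [Function.update_of_ne hi1, Function.update_of_ne hi2]; exact hp i hi
        · intro x hx y hy hxy
          by_cases hxv : x = v <;> by_cases hyv : y = v
          · rw [hxv, hyv]
          · exfalso
            rw [hxv, hevv, hev y hyv] at hxy
            have := hen y (Finset.mem_erase.2 ⟨hyv, hy⟩)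
            omega
          · exfalso
            rw [hyv, hevv, hev x hxv] at hxy
            have := hen x (Finset.mem_erase.2 ⟨hxv, hx⟩)
            omega
          · rw [hev x hxv, hev y hyv] at hxy
            exact he (Finset.mem_erase.2 ⟨hxv, hx⟩) (Finset.mem_erase.2 ⟨hyv, hy⟩) hxy
        · intro x hx
          by_cases hxv : x = v
          · rw [hxv, hevv]; omega
          · rw [hev x hxv]
            have := hen x (Finset.mem_erase.2 ⟨hxv, hx⟩)
            omega
        · have key : ∀ y ∈ A, y ≠ v → ¬ ((0 < m + 1 ∧ e y = m) ∨ (0 < e y ∧ m + 1 = p (e y))) := by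
            intro y hy hyv
            have hyn := hen y (Finset.mem_erase.2 ⟨hyv, hy⟩)
            rintro (⟨-, h⟩ | ⟨h1, h2⟩)
            · omega
            · have := hp _ h1
              omega
          intro x hx y hy
          by_cases hxv : x = v <;> by_cases hyv : y = v
          · rw [hxv, hyv, hevv, hpm]
            constructor
            · intro h; exact absurd h (F.irrefl)
            · intro h; omega
          · have hyn := hen y (Finset.mem_erase.2 ⟨hyv, hy⟩)
            rw [hxv, hevv, hev y hyv, hpm, hpi (e y) (by omega)]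
            constructor
            · intro h; exact absurd h (hnb y hy)
            · intro h; exact absurd h (key y hy hyv)
          · have hxn := hen x (Finset.mem_erase.2 ⟨hxv, hx⟩)
            rw [hyv, hevv, hev x hxv, hpm, hpi (e x) (by omega), F.adj_comm]
            constructor
            · intro h; exact absurd h (hnb x hx)
            · intro h; exact absurd (or_comm.1 h) (key x hx hxv)
          · have hxn := hen x (Finset.mem_erase.2 ⟨hxv, hx⟩)
            have hyn := hen y (Finset.mem_erase.2 ⟨hyv, hy⟩)
            rw [hev x hxv, hev y hyv, hpi (e x) (by omega), hpi (e y) (by omega)]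
            exact hadj x (Finset.mem_erase.2 ⟨hxv, hx⟩) y (Finset.mem_erase.2 ⟨hyv, hy⟩)

theorem forest_repr {W : Type u} [Finite W] (F : SimpleGraph W) (hF : F.IsAcyclic) :
    ∃ (p : ℕ → ℕ) (n : ℕ), (∀ i, 0 < i → p i < i) ∧
      ∀ (V : Type v) (G : SimpleGraph V) (φ : ℕ → V), IsCopy G p n φ →
        F.IsIndContained G := by
  have := Fintype.ofFinite W
  obtain ⟨p, n, e, hp, he, hen, hadj⟩ := forest_repr_aux F hF (Finset.univ : Finset W)
  refine ⟨p, n, hp, fun V G φ hφ => ?_⟩
  have hinj : ∀ i < n, ∀ j < n, φ i = φ j → i = j := by
    intro i hi j hj h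
    by_contra hne
    exact copy_inj hφ hi hj hne h
  have key : ∀ x y : W, G.Adj (φ (e x)) (φ (e y)) ↔ F.Adj x y := by
    intro x y
    have hx := hen x (Finset.mem_univ x)
    have hy := hen y (Finset.mem_univ y)
    rw [hadj x (Finset.mem_univ x) y (Finset.mem_univ y)]
    rcases lt_trichotomy (e x) (e y) with h | h | h
    · rw [G.adj_comm, (hφ (e y) hy (e x) h).2]
      constructor
      · intro h'; right; exact ⟨by omega, h'⟩
      · rintro (⟨h1, h2⟩ | ⟨h1, h2⟩)
        · have := hp _ h1
          omega
        · exact h2
    · rw [h]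
      constructor
      · intro h'; exact absurd h' (G.irrefl)
      · rintro (⟨h1, h2⟩ | ⟨h1, h2⟩)
        · have := hp _ h1
          omega
        · have := hp _ h1
          omega
    · rw [(hφ (e x) hx (e y) h).2]
      constructor
      · intro h'; left; exact ⟨by omega, h'⟩
      · rintro (⟨h1, h2⟩ | ⟨h1, h2⟩)
        · exact h2
        · have := hp _ h1
          omega
  exact ⟨⟨⟨fun w => φ (e w), fun x y hxy => he (Finset.mem_coe.2 (Finset.mem_univ x))
    (Finset.mem_coe.2 (Finset.mem_univ y))
    (hinj _ (hen x (Finset.mem_univ x)) _ (hen y (Finset.mem_univ y)) hxy)⟩,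
    fun {x y} => key x y⟩⟩

/-- Gyárfás–Sumner for graphs with a block system, for forests. -/
theorem gs_blocks_forest {W : Type u} [Finite W] (F : SimpleGraph W) (hF : F.IsAcyclic)
    (b c : ℕ) (s : ℕ → ℕ) :
    ∃ N : ℕ, ∀ (V : Type v) [Fintype V] (G : SimpleGraph V) (𝓑 : Finset (Finset V)),
      BlockSys G 𝓑 b c s → ¬ F.IsIndContained G → G.Colorable N := by
  obtain ⟨p, n, hp, hcopy⟩ := forest_repr.{u, v} F hF
  obtain ⟨N, hN⟩ := gs_blocks.{v} p hp b c s n
  refine ⟨N, fun V _ G 𝓑 hB hfree => ?_⟩
  have h := hN V G 𝓑 hB Finset.univ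
    (by rintro ⟨φ, hφ, -⟩; exact hfree (hcopy V G φ hφ))
  obtain ⟨C, hC1, hC2⟩ := h
  exact ⟨SimpleGraph.Coloring.mk (fun v => (⟨C v, hC1 v (Finset.mem_univ v)⟩ : Fin N))
    (fun {x y} hxy heq => hC2 x (Finset.mem_univ x) y (Finset.mem_univ y) hxy
      (congrArg Fin.val heq))⟩

end Pool.Agent.GSBlocks
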