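import Mathlib

set_option autoImplicit false

namespace Pool.Agent.GSBlocks

open Module

variable {W : Type*} [AddCommGroup W] [Module ℝ W]

/-- Two subspaces meet nontrivially. -/
def Meet (P Q : Submodule ℝ W) : Prop := ∃ z : W, z ≠ 0 ∧ z ∈ P ∧ z ∈ Q

theorem Meet.symm {P Q : Submodule ℝ W} (h : Meet P Q) : Meet Q P := by
  obtain ⟨z, h1, h2, h3⟩ := h
  exact ⟨z, h1, h3, h2⟩

theorem eq_zero_of_not_meet {P Q : Submodule ℝ W} (h : ¬ Meet P Q) {z : W} (hP : z ∈ P)
    (hQ : z ∈ Q) : z = 0 := by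
  by_contra hz
  exact h ⟨z, hz, hP, hQ⟩

theorem mem_of_two {P : Submodule ℝ W} (hP : finrank ℝ P = 2) {x y : W} (hx : x ∈ P) (hy : y ∈ P)
    (hind : ∀ a b : ℝ, a • x + b • y = 0 → a = 0 ∧ b = 0) :
    P = Submodule.span ℝ {x, y} := by
  have hfin : FiniteDimensional ℝ P := Module.finite_of_finrank_pos (by omega)
  have hli : LinearIndependent ℝ ![x, y] := LinearIndependent.pair_iff.2 hind
  have hspan : finrank ℝ (Submodule.span ℝ (Set.range ![x, y])) = 2 := by
    rw [finrank_span_eq_card hli]; simp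
  have hr : Set.range ![x, y] = {x, y} := by
    simp [Matrix.range_cons, Matrix.range_empty, Set.pair_comm]
    try rfl
  rw [hr] at hspan
  symm
  apply Submodule.eq_of_le_of_finrank_le
  · rw [Submodule.span_le]
    intro z hz
    rcases hz with rfl | hz
    · exact hx
    · rw [Set.mem_singleton_iff.1 hz]; exact hy
  · rw [hspan, hP]

theorem coords {P : Submodule ℝ W} (hP : finrank ℝ P = 2) {x y : W} (hx : x ∈ P) (hy : y ∈ P)
    (hind : ∀ a b : ℝ, a • x + b • y = 0 → a = 0 ∧ b = 0) {z : W} (hz : z ∈ P) :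
    ∃ a b : ℝ, z = a • x + b • y := by
  rw [mem_of_two hP hx hy hind, Submodule.mem_span_pair] at hz
  obtain ⟨a, b, h⟩ := hz
  exact ⟨a, b, h.symm⟩

/-- independence from skewness. -/
theorem indep_of_skew {P Q : Submodule ℝ W} (h : ¬ Meet P Q) {x y : W} (hx : x ∈ P) (hy : y ∈ Q)
    (hx0 : x ≠ 0) (hy0 : y ≠ 0) (a b : ℝ) (hab : a • x + b • y = 0) : a = 0 ∧ b = 0 := by
  have h1 : a • x = -(b • y) := eq_neg_of_add_eq_zero_left hab
  have h2 : a • x = 0 := eq_zero_of_not_meet h (P.smul_mem a hx)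
    (by rw [h1]; exact Q.neg_mem (Q.smul_mem b hy))
  have h3 : b • y = 0 := by rw [h2] at hab; simpa using hab
  exact ⟨(smul_eq_zero.1 h2).resolve_right hx0, (smul_eq_zero.1 h3).resolve_right hy0⟩

theorem scaled {A B C P : Submodule ℝ W} (hP : finrank ℝ P = 2) (hAB : ¬ Meet A B)
    (hAC : ¬ Meet A C) (hBC : ¬ Meet B C) (hPA : Meet P A) (hPB : Meet P B) (hPC : Meet P C) :
    ∃ p p' : W, p ≠ 0 ∧ p' ≠ 0 ∧ p ∈ P ∧ p' ∈ P ∧ p ∈ A ∧ p' ∈ B ∧ p + p' ∈ C := by
  obtain ⟨p, hp0, hpP, hpA⟩ := hPA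
  obtain ⟨p', hp'0, hp'P, hp'B⟩ := hPB
  obtain ⟨z, hz0, hzP, hzC⟩ := hPC
  obtain ⟨a, b, hab⟩ := coords hP hpP hp'P
    (fun a b h => indep_of_skew hAB hpA hp'B hp0 hp'0 a b h) hzP
  have ha : a ≠ 0 := by
    rintro rfl
    apply hz0
    rw [zero_smul, zero_add] at hab
    exact eq_zero_of_not_meet hBC (by rw [hab]; exact B.smul_mem b hp'B) hzC
  have hb : b ≠ 0 := by
    rintro rfl
    apply hz0
    rw [zero_smul, add_zero] at hab
    exact eq_zero_of_not_meet hAC (by rw [hab]; exact A.smul_mem a hpA) hzC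
  exact ⟨a • p, b • p', smul_ne_zero ha hp0, smul_ne_zero hb hp'0, P.smul_mem a hpP,
    P.smul_mem b hp'P, A.smul_mem a hpA, B.smul_mem b hp'B, by rw [← hab]; exact hzC⟩

/-- The regulus theorem. -/
theorem regulus {A B C P Q R X Y : Submodule ℝ W}
    (hA : finrank ℝ A = 2) (hB : finrank ℝ B = 2) (hC : finrank ℝ C = 2)
    (hP : finrank ℝ P = 2) (hQ : finrank ℝ Q = 2) (hR : finrank ℝ R = 2)
    (hX : finrank ℝ X = 2) (hY : finrank ℝ Y = 2)
    (hAB : ¬ Meet A B) (hAC : ¬ Meet A C) (hBC : ¬ Meet B C)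
    (hPQ : ¬ Meet P Q) (hPR : ¬ Meet P R) (hQR : ¬ Meet Q R)
    (hPA : Meet P A) (hPB : Meet P B) (hPC : Meet P C)
    (hQA : Meet Q A) (hQB : Meet Q B) (hQC : Meet Q C)
    (hRA : Meet R A) (hRB : Meet R B) (hRC : Meet R C)
    (hXP : Meet X P) (hXQ : Meet X Q) (hXR : Meet X R)
    (hYA : Meet Y A) (hYB : Meet Y B) (hYC : Meet Y C) : Meet X Y := by
  obtain ⟨p, p', hp0, hp'0, hpP, hp'P, hpA, hp'B, hpC⟩ := scaled hP hAB hAC hBC hPA hPB hPC
  obtain ⟨q, q', hq0, hq'0, hqQ, hq'Q, hqA, hq'B, hqC⟩ := scaled hQ hAB hAC hBC hQA hQB hQC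
  obtain ⟨r, r', hr0, hr'0, hrR, hr'R, hrA, hr'B, hrC⟩ := scaled hR hAB hAC hBC hRA hRB hRC
  obtain ⟨y, y', hy0, hy'0, hyY, hy'Y, hyA, hy'B, hyC⟩ := scaled hY hAB hAC hBC hYA hYB hYC
  have ipq : ∀ a b : ℝ, a • p + b • q = 0 → a = 0 ∧ b = 0 :=
    fun a b h => indep_of_skew hPQ hpP hqQ hp0 hq0 a b h
  have ipq' : ∀ a b : ℝ, a • p' + b • q' = 0 → a = 0 ∧ b = 0 :=
    fun a b h => indep_of_skew hPQ hp'P hq'Q hp'0 hq'0 a b h
  -- four-vector independence
  have i4 : ∀ a b c d : ℝ, a • p + b • q + (c • p' + d • q') = 0 →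
      (a = 0 ∧ b = 0) ∧ (c = 0 ∧ d = 0) := by
    intro a b c d h
    have h1 : a • p + b • q = -(c • p' + d • q') := eq_neg_of_add_eq_zero_left h
    have h2 : a • p + b • q = 0 :=
      eq_zero_of_not_meet hAB (A.add_mem (A.smul_mem a hpA) (A.smul_mem b hqA))
        (by rw [h1]; exact B.neg_mem (B.add_mem (B.smul_mem c hp'B) (B.smul_mem d hq'B)))
    have h3 : c • p' + d • q' = 0 := by rw [h2] at h; simpa using h
    exact ⟨ipq a b h2, ipq' c d h3⟩
  have ic : ∀ a b : ℝ, a • (p + p') + b • (q + q') = 0 → a = 0 ∧ b = 0 := by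
    intro a b h
    have : a • p + b • q + (a • p' + b • q') = 0 := by rw [← h]; module
    exact (i4 a b a b this).1
  -- transversals have equal coordinates
  have coordT : ∀ z z' : W, z ∈ A → z' ∈ B → z + z' ∈ C →
      ∃ l m : ℝ, z = l • p + m • q ∧ z' = l • p' + m • q' := by
    intro z z' hz hz' hzz
    obtain ⟨a, b, hab⟩ := coords hA hpA hqA ipq hz
    obtain ⟨a', b', hab'⟩ := coords hB hp'B hq'B ipq' hz'
    obtain ⟨a'', b'', hab''⟩ := coords hC hpC hqC ic hzz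
    have h : (a - a'') • p + (b - b'') • q + ((a' - a'') • p' + (b' - b'') • q') = 0 := by
      have : z + z' - (a'' • (p + p') + b'' • (q + q')) = 0 := sub_eq_zero.2 hab''
      rw [← this, hab, hab']
      module
    obtain ⟨⟨h1, h2⟩, h3, h4⟩ := i4 _ _ _ _ h
    have e1 : a' = a := by linarith
    have e2 : b' = b := by linarith
    exact ⟨a, b, hab, by rw [hab', e1, e2]⟩
  obtain ⟨l, m, hrl, hrl'⟩ := coordT r r' hrA hr'B hrC
  obtain ⟨ξ, η, hyl, hyl'⟩ := coordT y y' hyA hy'B hyC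
  have hl : l ≠ 0 := by
    rintro rfl
    apply hr0
    refine eq_zero_of_not_meet hQR ?_ hrR
    rw [hrl, zero_smul, zero_add]
    exact Q.smul_mem m hqQ
  have hm : m ≠ 0 := by
    rintro rfl
    apply hr0
    refine eq_zero_of_not_meet hPR ?_ hrR
    rw [hrl, zero_smul, add_zero]
    exact P.smul_mem l hpP
  obtain ⟨x1, hx10, hx1X, hx1P⟩ := hXP
  obtain ⟨x2, hx20, hx2X, hx2Q⟩ := hXQ
  obtain ⟨x3, hx30, hx3X, hx3R⟩ := hXR
  obtain ⟨s1, t1, h1⟩ := coords hP hpP hp'P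
    (fun a b h => indep_of_skew hAB hpA hp'B hp0 hp'0 a b h) hx1P
  obtain ⟨s2, t2, h2⟩ := coords hQ hqQ hq'Q
    (fun a b h => indep_of_skew hAB hqA hq'B hq0 hq'0 a b h) hx2Q
  obtain ⟨s3, t3, h3⟩ := coords hR hrR hr'R
    (fun a b h => indep_of_skew hAB hrA hr'B hr0 hr'0 a b h) hx3R
  obtain ⟨α, β, hαβ⟩ := coords hX hx1X hx2X
    (fun a b h => indep_of_skew hPQ hx1P hx2Q hx10 hx20 a b h) hx3X
  have h4 : (s3 * l - α * s1) • p + (s3 * m - β * s2) • q +
      ((t3 * l - α * t1) • p' + (t3 * m - β * t2) • q') = 0 := by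
    have : x3 - (α • x1 + β • x2) = 0 := sub_eq_zero.2 hαβ
    rw [← this, h3, h1, h2, hrl, hrl']
    module
  obtain ⟨⟨e1, e2⟩, e3, e4⟩ := i4 _ _ _ _ h4
  refine ⟨s3 • y + t3 • y', ?_, ?_, ?_⟩
  · intro hz
    obtain ⟨f1, f2⟩ := indep_of_skew hAB hyA hy'B hy0 hy'0 _ _ hz
    apply hx30
    rw [h3, f1, f2]
    simp
  · have g1 : s3 • p + t3 • p' = (α / l) • x1 := by
      have u1 : s3 = α / l * s1 := by field_simp; linarith
      have u2 : t3 = α / l * t1 := by field_simp; linarith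
      rw [h1, u1, u2]
      module
    have g2 : s3 • q + t3 • q' = (β / m) • x2 := by
      have u1 : s3 = β / m * s2 := by field_simp; linarith
      have u2 : t3 = β / m * t2 := by field_simp; linarith
      rw [h2, u1, u2]
      module
    have g3 : s3 • y + t3 • y' = ξ • (s3 • p + t3 • p') + η • (s3 • q + t3 • q') := by
      rw [hyl, hyl']
      module
    rw [g3, g1, g2]
    exact X.add_mem (X.smul_mem _ (X.smul_mem _ hx1X)) (X.smul_mem _ (X.smul_mem _ hx2X))
  · exact Y.add_mem (Y.smul_mem _ hyY) (Y.smul_mem _ hy'Y)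

/-- Distinct transversals of three pairwise skew planes (projective lines) are skew. -/
theorem skew_of_tr {A B C X Y : Submodule ℝ W}
    (hX : finrank ℝ X = 2) (hY : finrank ℝ Y = 2)
    (hAB : ¬ Meet A B) (hAC : ¬ Meet A C) (hBC : ¬ Meet B C)
    (hXA : Meet X A) (hXB : Meet X B) (hXC : Meet X C)
    (hYA : Meet Y A) (hYB : Meet Y B) (hYC : Meet Y C) (hXY : X ≠ Y) : ¬ Meet X Y := by
  rintro ⟨z, hz0, hzX, hzY⟩
  obtain ⟨x, x', hx0, hx'0, hxX, hx'X, hxA, hx'B, hxC⟩ := scaled hX hAB hAC hBC hXA hXB hXC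
  obtain ⟨y, y', hy0, hy'0, hyY, hy'Y, hyA, hy'B, hyC⟩ := scaled hY hAB hAC hBC hYA hYB hYC
  obtain ⟨a, b, hab⟩ := coords hX hxX hx'X
    (fun a b h => indep_of_skew hAB hxA hx'B hx0 hx'0 a b h) hzX
  obtain ⟨c, d, hcd⟩ := coords hY hyY hy'Y
    (fun a b h => indep_of_skew hAB hyA hy'B hy0 hy'0 a b h) hzY
  have h1 : a • x - c • y = d • y' - b • x' := by
    have : a • x + b • x' = c • y + d • y' := by rw [← hab, ← hcd]
    have h2 : a • x - c • y - (d • y' - b • x') = (a • x + b • x') - (c • y + d • y') := by module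
    rw [← sub_eq_zero, h2, this, sub_self]
  have h2 : a • x - c • y = 0 :=
    eq_zero_of_not_meet hAB (A.sub_mem (A.smul_mem a hxA) (A.smul_mem c hyA))
      (by rw [h1]; exact B.sub_mem (B.smul_mem d hy'B) (B.smul_mem b hx'B))
  have h3 : d • y' - b • x' = 0 := by rw [← h1, h2]
  -- either `a ≠ 0` or `b ≠ 0`
  have key : ∃ e : ℝ, e ≠ 0 ∧ y = e • x ∧ y' = e • x' := by
    by_cases ha : a = 0
    · have hb : b ≠ 0 := by
        rintro rfl
        apply hz0
        rw [hab, ha]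
        simp
      have hd : d ≠ 0 := by
        rintro rfl
        rw [zero_smul, zero_sub, neg_eq_zero, smul_eq_zero] at h3
        rcases h3 with h | h
        · exact hb h
        · exact hx'0 h
      have e1 : y' = (b / d) • x' := by
        have : d • y' = b • x' := sub_eq_zero.1 h3
        rw [div_eq_inv_mul, mul_smul, ← this, smul_smul, inv_mul_cancel₀ hd, one_smul]
      refine ⟨b / d, div_ne_zero hb hd, ?_, e1⟩
      have h5 : y - (b / d) • x = 0 := by
        apply eq_zero_of_not_meet hAC (A.sub_mem hyA (A.smul_mem _ hxA))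
        have : y - (b / d) • x = (y + y') - (b / d) • (x + x') := by rw [e1]; module
        rw [this]
        exact C.sub_mem hyC (C.smul_mem _ hxC)
      exact sub_eq_zero.1 h5
    · have hc : c ≠ 0 := by
        rintro rfl
        rw [zero_smul, sub_zero, smul_eq_zero] at h2
        rcases h2 with h | h
        · exact ha h
        · exact hx0 h
      have e1 : y = (a / c) • x := by
        have : a • x = c • y := sub_eq_zero.1 h2
        rw [div_eq_inv_mul, mul_smul, this, smul_smul, inv_mul_cancel₀ hc, one_smul]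
      refine ⟨a / c, div_ne_zero ha hc, e1, ?_⟩
      have h5 : y' - (a / c) • x' = 0 := by
        apply eq_zero_of_not_meet hBC (B.sub_mem hy'B (B.smul_mem _ hx'B))
        have : y' - (a / c) • x' = (y + y') - (a / c) • (x + x') := by rw [e1]; module
        rw [this]
        exact C.sub_mem hyC (C.smul_mem _ hxC)
      exact sub_eq_zero.1 h5
  obtain ⟨e, he, hy, hy'⟩ := key
  apply hXY
  have i1 := mem_of_two hX hxX hx'X (fun a b h => indep_of_skew hAB hxA hx'B hx0 hx'0 a b h)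
  have i2 := mem_of_two hY (x := x) (y := x')
    (by have : x = e⁻¹ • y := by rw [hy, smul_smul, inv_mul_cancel₀ he, one_smul]
        rw [this]; exact Y.smul_mem _ hyY)
    (by have : x' = e⁻¹ • y' := by rw [hy', smul_smul, inv_mul_cancel₀ he, one_smul]
        rw [this]; exact Y.smul_mem _ hy'Y)
    (fun a b h => indep_of_skew hAB hxA hx'B hx0 hx'0 a b h)
  rw [i1, i2]

/-- Two planes in a 3-space meet. -/
theorem meet_of_le {P P' Q : Submodule ℝ W} (hP : finrank ℝ P = 2) (hP' : finrank ℝ P' = 2)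
    (hQ : finrank ℝ Q = 3) (h : P ≤ Q) (h' : P' ≤ Q) : Meet P P' := by
  have hfQ : FiniteDimensional ℝ Q := Module.finite_of_finrank_pos (by omega)
  have hfP : FiniteDimensional ℝ P := Module.finite_of_finrank_pos (by omega)
  have hfP' : FiniteDimensional ℝ P' := Module.finite_of_finrank_pos (by omega)
  have h1 := Submodule.finrank_sup_add_finrank_inf_eq P P'
  have h2 : finrank ℝ ↥(P ⊔ P') ≤ 3 := by
    rw [← hQ]
    exact Submodule.finrank_mono (sup_le h h')
  have h3 : 0 < finrank ℝ ↥(P ⊓ P') := by omega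
  have h4 : P ⊓ P' ≠ ⊥ := by
    intro h5
    rw [h5, finrank_bot] at h3
    omega
  obtain ⟨z, hz, hz0⟩ := Submodule.exists_mem_ne_zero_of_ne_bot h4
  exact ⟨z, hz0, hz.1, hz.2⟩

theorem finrank_sup {P P' : Submodule ℝ W} (hP : finrank ℝ P = 2) (hP' : finrank ℝ P' = 2)
    (hne : P ≠ P') (hm : Meet P P') : finrank ℝ ↥(P ⊔ P') = 3 := by
  have hfP : FiniteDimensional ℝ P := Module.finite_of_finrank_pos (by omega)
  have hfP' : FiniteDimensional ℝ P' := Module.finite_of_finrank_pos (by omega)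
  have h1 := Submodule.finrank_sup_add_finrank_inf_eq P P'
  have h2 : 0 < finrank ℝ ↥(P ⊓ P') := by
    obtain ⟨z, hz0, hz1, hz2⟩ := hm
    rw [Module.finrank_pos_iff_exists_ne_zero]
    exact ⟨⟨z, hz1, hz2⟩, fun h => hz0 (congrArg Subtype.val h)⟩
  have h3 : finrank ℝ ↥(P ⊓ P') < 2 := by
    by_contra hcon
    push Not at hcon
    have e1 : P ⊓ P' = P := Submodule.eq_of_le_of_finrank_le inf_le_left (by omega)
    have e2 : P ⊓ P' = P' := Submodule.eq_of_le_of_finrank_le inf_le_right (by omega)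
    exact hne (e1.symm.trans e2)
  omega

theorem eq_of_three {P P' Q Q' : Submodule ℝ W} (hP : finrank ℝ P = 2) (hP' : finrank ℝ P' = 2)
    (hne : P ≠ P') (hQ : finrank ℝ Q = 3) (hQ' : finrank ℝ Q' = 3) (h1 : P ≤ Q) (h2 : P' ≤ Q)
    (h3 : P ≤ Q') (h4 : P' ≤ Q') : Q = Q' := by
  have hfQ : FiniteDimensional ℝ Q := Module.finite_of_finrank_pos (by omega)
  have hfQ' : FiniteDimensional ℝ Q' := Module.finite_of_finrank_pos (by omega)
  have hm := meet_of_le hP hP' hQ h1 h2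
  have h5 := finrank_sup hP hP' hne hm
  have e1 : P ⊔ P' = Q := Submodule.eq_of_le_of_finrank_le (sup_le h1 h2) (by omega)
  have e2 : P ⊔ P' = Q' := Submodule.eq_of_le_of_finrank_le (sup_le h3 h4) (by omega)
  rw [← e1, e2]

theorem eq_of_two {P P' : Submodule ℝ W} (hP : finrank ℝ P = 2) (hP' : finrank ℝ P' = 2)
    {x y : W} (hind : ∀ a b : ℝ, a • x + b • y = 0 → a = 0 ∧ b = 0)
    (hx : x ∈ P) (hy : y ∈ P) (hx' : x ∈ P') (hy' : y ∈ P') : P = P' := by
  rw [mem_of_two hP hx hy hind, mem_of_two hP' hx' hy' hind]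

end Pool.Agent.GSBlocks
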