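import Pool.Agent.GSBlocks.Main
import Pool.Agent.GSBlocks.LinAlg

set_option autoImplicit false

namespace Pool.Agent.GSBlocks

open Finset Classical Module

variable {E : Type*} [AddCommGroup E] [Module ℝ E] {V : Type*}

/-- A family of sets `K v`, each contained in an affine line (given by the `2`-dimensional
subspace `P v` of `E × ℝ`), with intersection graph `G`. -/
structure GeoFam (G : SimpleGraph V) (P : V → Submodule ℝ (E × ℝ)) (K : V → Set E) : Prop where
  rank : ∀ v, finrank ℝ (P v) = 2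
  sub : ∀ v, ∀ x ∈ K v, (x, (1 : ℝ)) ∈ P v
  adj : ∀ v w, G.Adj v w ↔ v ≠ w ∧ (K v ∩ K w).Nonempty

theorem pt_indep {x x' : E} (h : x ≠ x') (a b : ℝ)
    (hab : a • (x, (1 : ℝ)) + b • (x', (1 : ℝ)) = 0) : a = 0 ∧ b = 0 := by
  have h1 : a • x + b • x' = 0 := by
    have := congrArg Prod.fst hab
    simpa using this
  have h2 : a + b = 0 := by
    have := congrArg Prod.snd hab
    simpa using this
  have hb : b = -a := by linarith
  subst hb
  have h3 : a • (x - x') = 0 := by rw [← h1]; module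
  rcases smul_eq_zero.1 h3 with h4 | h4
  · exact ⟨h4, by rw [h4, neg_zero]⟩
  · exact absurd (sub_eq_zero.1 h4) h

def Tr (P : V → Submodule ℝ (E × ℝ)) (a b c v : V) : Prop :=
  Meet (P v) (P a) ∧ Meet (P v) (P b) ∧ Meet (P v) (P c)

def Skew3 (P : V → Submodule ℝ (E × ℝ)) (a b c : V) : Prop :=
  ¬ Meet (P a) (P b) ∧ ¬ Meet (P a) (P c) ∧ ¬ Meet (P b) (P c)

/-- A pair of opposite reguli. -/
def IsReg (P : V → Submodule ℝ (E × ℝ)) (T1 T2 : V → Prop) : Prop :=
  ∃ a b c a' b' c' : V, Skew3 P a b c ∧ Skew3 P a' b' c' ∧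
    Tr P a b c a' ∧ Tr P a b c b' ∧ Tr P a b c c' ∧
    (∀ v, T1 v ↔ Tr P a b c v) ∧ (∀ v, T2 v ↔ Tr P a' b' c' v)

theorem IsReg.symm {P : V → Submodule ℝ (E × ℝ)} {T1 T2 : V → Prop} (h : IsReg P T1 T2) :
    IsReg P T2 T1 := by
  obtain ⟨a, b, c, a', b', c', h1, h2, ha, hb, hc, hT1, hT2⟩ := h
  exact ⟨a', b', c', a, b, c, h2, h1, ⟨ha.1.symm, hb.1.symm, hc.1.symm⟩,
    ⟨ha.2.1.symm, hb.2.1.symm, hc.2.1.symm⟩, ⟨ha.2.2.symm, hb.2.2.symm, hc.2.2.symm⟩, hT2, hT1⟩

theorem IsReg.skew {P : V → Submodule ℝ (E × ℝ)} (hr : ∀ v, finrank ℝ (P v) = 2)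
    {T1 T2 : V → Prop} (h : IsReg P T1 T2) {v w : V} (hv : T1 v) (hw : T1 w) (hne : P v ≠ P w) :
    ¬ Meet (P v) (P w) := by
  obtain ⟨a, b, c, a', b', c', h1, h2, ha, hb, hc, hT1, hT2⟩ := h
  obtain ⟨v1, v2, v3⟩ := (hT1 v).1 hv
  obtain ⟨w1, w2, w3⟩ := (hT1 w).1 hw
  exact skew_of_tr (hr v) (hr w) h1.1 h1.2.1 h1.2.2 v1 v2 v3 w1 w2 w3 hne

theorem IsReg.cross {P : V → Submodule ℝ (E × ℝ)} (hr : ∀ v, finrank ℝ (P v) = 2)
    {T1 T2 : V → Prop} (h : IsReg P T1 T2) {v w : V} (hv : T1 v) (hw : T2 w) :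
    Meet (P v) (P w) := by
  obtain ⟨a, b, c, a', b', c', h1, h2, ha, hb, hc, hT1, hT2⟩ := h
  obtain ⟨v1, v2, v3⟩ := (hT1 v).1 hv
  obtain ⟨w1, w2, w3⟩ := (hT2 w).1 hw
  exact (regulus (hr a) (hr b) (hr c) (hr a') (hr b') (hr c') (hr w) (hr v) h1.1 h1.2.1 h1.2.2
    h2.1 h2.2.1 h2.2.2 ha.1 ha.2.1 ha.2.2 hb.1 hb.2.1 hb.2.2 hc.1 hc.2.1 hc.2.2
    w1 w2 w3 v1 v2 v3).symm

/-- A line meeting three lines of one regulus is in the opposite one. -/
theorem IsReg.three {P : V → Submodule ℝ (E × ℝ)} (hr : ∀ v, finrank ℝ (P v) = 2)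
    {T1 T2 : V → Prop} (h : IsReg P T1 T2) {v x y z : V} (hx : T1 x) (hy : T1 y) (hz : T1 z)
    (hxy : P x ≠ P y) (hxz : P x ≠ P z) (hyz : P y ≠ P z)
    (h1 : Meet (P v) (P x)) (h2 : Meet (P v) (P y)) (h3 : Meet (P v) (P z)) : T2 v := by
  have s1 := h.skew hr hx hy hxy
  have s2 := h.skew hr hx hz hxz
  have s3 := h.skew hr hy hz hyz
  obtain ⟨a, b, c, a', b', c', k1, k2, ha, hb, hc, hT1, hT2⟩ := h
  obtain ⟨x1, x2, x3⟩ := (hT1 x).1 hx
  obtain ⟨y1, y2, y3⟩ := (hT1 y).1 hy
  obtain ⟨z1, z2, z3⟩ := (hT1 z).1 hz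
  rw [hT2]
  have key : ∀ w, Tr P a b c w → Meet (P v) (P w) := by
    intro w hw
    exact regulus (hr a) (hr b) (hr c) (hr x) (hr y) (hr z) (hr v) (hr w) k1.1 k1.2.1 k1.2.2
      s1 s2 s3 x1 x2 x3 y1 y2 y3 z1 z2 z3 h1 h2 h3 hw.1 hw.2.1 hw.2.2
  exact ⟨key a' ha, key b' hb, key c' hc⟩

theorem IsReg.eq {P : V → Submodule ℝ (E × ℝ)} (hr : ∀ v, finrank ℝ (P v) = 2)
    {T1 T2 T1' T2' : V → Prop} (h : IsReg P T1 T2) (h' : IsReg P T1' T2') {x y z : V}
    (hx : T1 x) (hy : T1 y) (hz : T1 z) (hx' : T1' x) (hy' : T1' y) (hz' : T1' z)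
    (hxy : P x ≠ P y) (hxz : P x ≠ P z) (hyz : P y ≠ P z) :
    (∀ v, T1 v ↔ T1' v) ∧ (∀ v, T2 v ↔ T2' v) := by
  have e2 : ∀ v, T2 v ↔ T2' v := by
    intro v
    constructor
    · intro hv
      exact h'.three hr hx' hy' hz' hxy hxz hyz (h.cross hr hx hv).symm (h.cross hr hy hv).symm
        (h.cross hr hz hv).symm
    · intro hv
      exact h.three hr hx hy hz hxy hxz hyz (h'.cross hr hx' hv).symm (h'.cross hr hy' hv).symm
        (h'.cross hr hz' hv).symm
  refine ⟨?_, e2⟩
  -- three elements of `T2`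
  have hex : ∀ {S1 S2 : V → Prop}, IsReg P S1 S2 → ∃ a b c, S2 a ∧ S2 b ∧ S2 c ∧
      P a ≠ P b ∧ P a ≠ P c ∧ P b ≠ P c := by
    intro S1 S2 hS
    have hself : ∀ v, Meet (P v) (P v) := by
      intro v
      have hf : 0 < finrank ℝ (P v) := by rw [hr v]; omega
      have hfin : Module.Finite ℝ (P v) := Module.finite_of_finrank_pos hf
      obtain ⟨z, hz⟩ := Module.finrank_pos_iff_exists_ne_zero.1 hf
      exact ⟨z, fun h0 => hz (Subtype.ext h0), z.2, z.2⟩
    obtain ⟨a, b, c, a', b', c', k1, k2, ha, hb, hc, hT1, hT2⟩ := hS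
    refine ⟨a, b, c, ?_, ?_, ?_, ?_, ?_, ?_⟩
    · rw [hT2]; exact ⟨ha.1.symm, hb.1.symm, hc.1.symm⟩
    · rw [hT2]; exact ⟨ha.2.1.symm, hb.2.1.symm, hc.2.1.symm⟩
    · rw [hT2]; exact ⟨ha.2.2.symm, hb.2.2.symm, hc.2.2.symm⟩
    · intro h; apply k1.1; rw [h]; exact hself b
    · intro h; apply k1.2.1; rw [h]; exact hself c
    · intro h; apply k1.2.2; rw [h]; exact hself c
  obtain ⟨a, b, c, ha, hb, hc, hab, hac, hbc⟩ := hex h
  intro v
  constructor
  · intro hv
    exact h'.symm.three hr ((e2 a).1 ha) ((e2 b).1 hb) ((e2 c).1 hc) hab hac hbc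
      (h.cross hr hv ha) (h.cross hr hv hb) (h.cross hr hv hc)
  · intro hv
    exact h.symm.three hr ha hb hc hab hac hbc
      (h'.cross hr hv ((e2 a).1 ha)) (h'.cross hr hv ((e2 b).1 hb)) (h'.cross hr hv ((e2 c).1 hc))

theorem card_le_two {A : Finset V}
    (h : ∀ x ∈ A, ∀ y ∈ A, ∀ z ∈ A, x ≠ y → x ≠ z → y ≠ z → False) : A.card ≤ 2 := by
  by_contra hcon
  push Not at hcon
  obtain ⟨x, hx, y, hy, z, hz, h1, h2, h3⟩ := Finset.two_lt_card.1 hcon
  exact h x hx y hy z hz h1 h2 h3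

section
variable [Fintype V] {G : SimpleGraph V} {P : V → Submodule ℝ (E × ℝ)} {K : V → Set E}

omit [Fintype V] in
theorem adj_meet (hG : GeoFam G P K) {v w : V} (h : G.Adj v w) : Meet (P v) (P w) := by
  obtain ⟨-, x, hx, hx'⟩ := (hG.adj v w).1 h
  refine ⟨(x, 1), ?_, hG.sub v x hx, hG.sub w x hx'⟩
  intro h0
  have := congrArg Prod.snd h0
  simp at this

omit [Fintype V] in
theorem nb_inj (hG : GeoFam G P K) (hcol : ∀ v w, P v = P w → ¬ G.Adj v w) {v w w' : V}
    (h : G.Adj v w) (h' : G.Adj v w') (hne : w ≠ w') : P w ≠ P w' := by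
  intro heq
  obtain ⟨-, x, hx, hxw⟩ := (hG.adj v w).1 h
  obtain ⟨-, x', hx', hxw'⟩ := (hG.adj v w').1 h'
  have hxx : x = x' := by
    by_contra hxx
    have : P v = P w := eq_of_two (hG.rank v) (hG.rank w) (pt_indep hxx) (hG.sub v x hx)
      (hG.sub v x' hx') (hG.sub w x hxw) (by rw [heq]; exact hG.sub w' x' hxw')
    exact hcol v w this h
  subst hxx
  exact hcol w w' heq ((hG.adj w w').2 ⟨hne, x, hxw, hxw'⟩)

/-- plane blocks -/
def IsPl (P : V → Submodule ℝ (E × ℝ)) (B : Finset V) : Prop :=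
  ∃ Q : Submodule ℝ (E × ℝ), finrank ℝ Q = 3 ∧ B = univ.filter (fun v => P v ≤ Q)

/-- regulus blocks -/
def IsRg (P : V → Submodule ℝ (E × ℝ)) (B : Finset V) : Prop :=
  ∃ T1 T2 : V → Prop, IsReg P T1 T2 ∧ B = univ.filter (fun v => T1 v ∨ T2 v)

noncomputable def blocks (P : V → Submodule ℝ (E × ℝ)) : Finset (Finset V) :=
  univ.filter (fun B => IsPl P B ∨ IsRg P B)

theorem reg_part (hG : GeoFam G P K) (hcol : ∀ v w, P v = P w → ¬ G.Adj v w)
    {T1 T2 T1' T2' : V → Prop} (h : IsReg P T1 T2) (h' : IsReg P T1' T2')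
    (hne : ¬ ((∀ v, T1 v ↔ T1' v) ∧ (∀ v, T2 v ↔ T2' v))) (v : V) :
    (univ.filter (fun w => (T1 w ∧ T1' w) ∧ G.Adj v w)).card ≤ 2 := by
  apply card_le_two
  intro x hx y hy z hz hxy hxz hyz
  simp only [Finset.mem_filter, Finset.mem_univ, true_and] at hx hy hz
  exact hne (h.eq hG.rank h' hx.1.1 hy.1.1 hz.1.1 hx.1.2 hy.1.2 hz.1.2
    (nb_inj hG hcol hx.2 hy.2 hxy) (nb_inj hG hcol hx.2 hz.2 hxz) (nb_inj hG hcol hy.2 hz.2 hyz))

theorem plane_reg_part (hG : GeoFam G P K) (hcol : ∀ v w, P v = P w → ¬ G.Adj v w)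
    {T1 T2 : V → Prop} (h : IsReg P T1 T2) {Q : Submodule ℝ (E × ℝ)} (hQ : finrank ℝ Q = 3)
    (v : V) : (univ.filter (fun w => (T1 w ∧ P w ≤ Q) ∧ G.Adj v w)).card ≤ 2 := by
  apply card_le_two
  intro x hx y hy z hz hxy hxz hyz
  simp only [Finset.mem_filter, Finset.mem_univ, true_and] at hx hy hz
  exact h.skew hG.rank hx.1.1 hy.1.1 (nb_inj hG hcol hx.2 hy.2 hxy)
    (meet_of_le (hG.rank x) (hG.rank y) hQ hx.1.2 hy.1.2)

theorem blockSys_of_geo (hG : GeoFam G P K) (hcol : ∀ v w, P v = P w → ¬ G.Adj v w) (k : ℕ)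
    (hk : ∀ A : Finset V, (∀ u ∈ A, ∀ v ∈ A, u ≠ v → G.Adj u v) → A.card ≤ k) (c : ℕ)
    (hpl : ∀ Q : Submodule ℝ (E × ℝ), finrank ℝ Q = 3 →
      ColOn G (univ.filter (fun v => P v ≤ Q)) c) :
    BlockSys G (blocks P) (k + 8) (c + 2) (fun t => 2 * (k + t) + 3) := by
  have hplreg : ∀ {T1 T2 : V → Prop}, IsReg P T1 T2 → ∀ {Q : Submodule ℝ (E × ℝ)},
      finrank ℝ Q = 3 → ∀ v,
      ((univ.filter (fun w => P w ≤ Q) ∩ univ.filter (fun w => T1 w ∨ T2 w)).filter
        (G.Adj v)).card ≤ k + 8 := by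
    intro T1 T2 h Q hQ v
    have h1 := plane_reg_part hG hcol h hQ v
    have h2 := plane_reg_part hG hcol h.symm hQ v
    have h3 : (univ.filter (fun w => P w ≤ Q) ∩ univ.filter (fun w => T1 w ∨ T2 w)).filter
        (G.Adj v) ⊆ univ.filter (fun w => (T1 w ∧ P w ≤ Q) ∧ G.Adj v w) ∪
          univ.filter (fun w => (T2 w ∧ P w ≤ Q) ∧ G.Adj v w) := by
      intro w hw
      simp only [Finset.mem_filter, Finset.mem_inter, Finset.mem_univ, true_and,
        Finset.mem_union] at hw ⊢
      tauto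
    have h4 := Finset.card_le_card h3
    have h5 := Finset.card_union_le (univ.filter (fun w => (T1 w ∧ P w ≤ Q) ∧ G.Adj v w))
      (univ.filter (fun w => (T2 w ∧ P w ≤ Q) ∧ G.Adj v w))
    omega
  refine ⟨?_, ?_, ?_, ?_⟩
  · -- inter
    intro v B hB B' hB' hne
    rcases (Finset.mem_filter.1 hB).2 with ⟨Q, hQ, hBQ⟩ | ⟨T1, T2, hT, hBT⟩ <;>
      rcases (Finset.mem_filter.1 hB').2 with ⟨Q', hQ', hBQ'⟩ | ⟨T1', T2', hT', hBT'⟩
    · -- plane / plane
      have h1 : ((B ∩ B').filter (G.Adj v)).card ≤ 2 := by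
        apply card_le_two
        intro x hx y hy z hz hxy hxz hyz
        rw [hBQ, hBQ'] at hx hy
        simp only [Finset.mem_filter, Finset.mem_inter, Finset.mem_univ, true_and] at hx hy
        have hP := nb_inj hG hcol hx.2 hy.2 hxy
        have hQQ := eq_of_three (hG.rank x) (hG.rank y) hP hQ hQ' hx.1.1 hy.1.1 hx.1.2 hy.1.2
        apply hne
        rw [hBQ, hBQ', hQQ]
      omega
    · rw [hBQ, hBT']
      exact hplreg hT' hQ v
    · rw [hBT, hBQ', Finset.inter_comm]
      exact hplreg hT hQ' v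
    · have p1 : (univ.filter (fun w => (T1 w ∧ T1' w) ∧ G.Adj v w)).card ≤ 2 := by
        apply reg_part hG hcol hT hT'
        rintro ⟨e1, e2⟩
        apply hne
        rw [hBT, hBT']
        ext w
        simp only [Finset.mem_filter, Finset.mem_univ, true_and]
        rw [e1, e2]
      have p2 : (univ.filter (fun w => (T1 w ∧ T2' w) ∧ G.Adj v w)).card ≤ 2 := by
        apply reg_part hG hcol hT hT'.symm
        rintro ⟨e1, e2⟩
        apply hne
        rw [hBT, hBT']
        ext w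
        simp only [Finset.mem_filter, Finset.mem_univ, true_and]
        rw [e1, e2]
        exact or_comm
      have p3 : (univ.filter (fun w => (T2 w ∧ T1' w) ∧ G.Adj v w)).card ≤ 2 := by
        apply reg_part hG hcol hT.symm hT'
        rintro ⟨e1, e2⟩
        apply hne
        rw [hBT, hBT']
        ext w
        simp only [Finset.mem_filter, Finset.mem_univ, true_and]
        rw [e1, e2]
        exact or_comm
      have p4 : (univ.filter (fun w => (T2 w ∧ T2' w) ∧ G.Adj v w)).card ≤ 2 := by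
        apply reg_part hG hcol hT.symm hT'.symm
        rintro ⟨e1, e2⟩
        apply hne
        rw [hBT, hBT']
        ext w
        simp only [Finset.mem_filter, Finset.mem_univ, true_and]
        rw [e1, e2]
      have hsub : (B ∩ B').filter (G.Adj v) ⊆
          (univ.filter (fun w => (T1 w ∧ T1' w) ∧ G.Adj v w) ∪
            univ.filter (fun w => (T1 w ∧ T2' w) ∧ G.Adj v w)) ∪
          (univ.filter (fun w => (T2 w ∧ T1' w) ∧ G.Adj v w) ∪
            univ.filter (fun w => (T2 w ∧ T2' w) ∧ G.Adj v w)) := by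
        intro w hw
        rw [hBT, hBT'] at hw
        simp only [Finset.mem_filter, Finset.mem_inter, Finset.mem_univ, true_and,
          Finset.mem_union] at hw ⊢
        tauto
      have q0 := Finset.card_le_card hsub
      have q1 := Finset.card_union_le
        (univ.filter (fun w => (T1 w ∧ T1' w) ∧ G.Adj v w) ∪
            univ.filter (fun w => (T1 w ∧ T2' w) ∧ G.Adj v w))
        (univ.filter (fun w => (T2 w ∧ T1' w) ∧ G.Adj v w) ∪
            univ.filter (fun w => (T2 w ∧ T2' w) ∧ G.Adj v w))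
      have q2 := Finset.card_union_le (univ.filter (fun w => (T1 w ∧ T1' w) ∧ G.Adj v w))
        (univ.filter (fun w => (T1 w ∧ T2' w) ∧ G.Adj v w))
      have q3 := Finset.card_union_le (univ.filter (fun w => (T2 w ∧ T1' w) ∧ G.Adj v w))
        (univ.filter (fun w => (T2 w ∧ T2' w) ∧ G.Adj v w))
      omega
  · -- out
    intro B hB v hvB
    rcases (Finset.mem_filter.1 hB).2 with ⟨Q, hQ, hBQ⟩ | ⟨T1, T2, hT, hBT⟩
    · have h1 : (B.filter (G.Adj v)).card ≤ k := by
        apply hk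
        intro u hu w hw huw
        rw [hBQ] at hu hw hvB
        simp only [Finset.mem_filter, Finset.mem_univ, true_and] at hu hw hvB
        obtain ⟨-, x, hx, hxu⟩ := (hG.adj v u).1 hu.2
        obtain ⟨-, x', hx', hxw⟩ := (hG.adj v w).1 hw.2
        have hxx : x = x' := by
          by_contra hxx
          apply hvB
          rw [mem_of_two (hG.rank v) (hG.sub v x hx) (hG.sub v x' hx') (pt_indep hxx),
            Submodule.span_le]
          intro z hz
          rcases hz with rfl | hz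
          · exact hu.1 (hG.sub u x hxu)
          · rw [Set.mem_singleton_iff.1 hz]
            exact hw.1 (hG.sub w x' hxw)
        subst hxx
        exact (hG.adj u w).2 ⟨huw, x, hxu, hxw⟩
      omega
    · have hpart : ∀ {S1 S2 : V → Prop}, IsReg P S1 S2 → ¬ S2 v →
          (univ.filter (fun w => S1 w ∧ G.Adj v w)).card ≤ 2 := by
        intro S1 S2 hS hv
        apply card_le_two
        intro x hx y hy z hz hxy hxz hyz
        simp only [Finset.mem_filter, Finset.mem_univ, true_and] at hx hy hz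
        exact hv (hS.three hG.rank hx.1 hy.1 hz.1 (nb_inj hG hcol hx.2 hy.2 hxy)
          (nb_inj hG hcol hx.2 hz.2 hxz) (nb_inj hG hcol hy.2 hz.2 hyz)
          (adj_meet hG hx.2) (adj_meet hG hy.2) (adj_meet hG hz.2))
      rw [hBT] at hvB
      simp only [Finset.mem_filter, Finset.mem_univ, true_and, not_or] at hvB
      have h1 := hpart hT hvB.2
      have h2 := hpart hT.symm hvB.1
      have hsub : B.filter (G.Adj v) ⊆ univ.filter (fun w => T1 w ∧ G.Adj v w) ∪
          univ.filter (fun w => T2 w ∧ G.Adj v w) := by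
        intro w hw
        rw [hBT] at hw
        simp only [Finset.mem_filter, Finset.mem_univ, true_and, Finset.mem_union] at hw ⊢
        tauto
      have h3 := Finset.card_le_card hsub
      have h4 := Finset.card_union_le (univ.filter (fun w => T1 w ∧ G.Adj v w))
        (univ.filter (fun w => T2 w ∧ G.Adj v w))
      omega
  · -- bicliques
    intro t X Y hX hY hXY x hx
    by_cases hplane : ∃ Q : Submodule ℝ (E × ℝ), finrank ℝ Q = 3 ∧ P x ≤ Q ∧
        t ≤ (Y ∩ univ.filter (fun v => P v ≤ Q)).card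
    · obtain ⟨Q, hQ, hxQ, htQ⟩ := hplane
      exact ⟨univ.filter (fun v => P v ≤ Q), Finset.mem_filter.2 ⟨Finset.mem_univ _,
        Or.inl ⟨Q, hQ, rfl⟩⟩, by simp [hxQ], htQ⟩
    · push Not at hplane
      -- the non-skew neighbours
      have hns : ∀ y ∈ Y, (Y.filter (fun y' => Meet (P y) (P y'))).card ≤ k + t := by
        intro y hy
        have hxy := hXY x hx y hy
        obtain ⟨-, z, hzx, hzy⟩ := (hG.adj x y).1 hxy
        have hPne : P x ≠ P y := fun h => hcol x y h hxy
        have hQ := finrank_sup (hG.rank x) (hG.rank y) hPne (adj_meet hG hxy)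
        have h1 := hplane (P x ⊔ P y) hQ le_sup_left
        have h2 : (Y.filter (fun y' => z ∈ K y')).card ≤ k := by
          apply hk
          intro u hu w hw huw
          exact (hG.adj u w).2 ⟨huw, z, (Finset.mem_filter.1 hu).2, (Finset.mem_filter.1 hw).2⟩
        have hsub : Y.filter (fun y' => Meet (P y) (P y')) ⊆
            Y.filter (fun y' => z ∈ K y') ∪
              (Y ∩ univ.filter (fun v => P v ≤ P x ⊔ P y)) := by
          intro y' hy'
          obtain ⟨hy'Y, hm⟩ := Finset.mem_filter.1 hy'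
          rw [Finset.mem_union]
          by_cases hz : z ∈ K y'
          · left; exact Finset.mem_filter.2 ⟨hy'Y, hz⟩
          · right
            rw [Finset.mem_inter]
            refine ⟨hy'Y, Finset.mem_filter.2 ⟨Finset.mem_univ _, ?_⟩⟩
            by_cases hyy : P y' = P y
            · rw [hyy]; exact le_sup_right
            obtain ⟨-, z', hz'x, hz'y⟩ := (hG.adj x y').1 (hXY x hx y' hy'Y)
            have hzz : z ≠ z' := fun h => hz (by rw [h]; exact hz'y)
            obtain ⟨w, hw0, hwy, hwy'⟩ := hm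
            -- `w` and `(z',1)` are independent
            have hind : ∀ a b : ℝ, a • w + b • (z', (1 : ℝ)) = 0 → a = 0 ∧ b = 0 := by
              intro a b hab
              by_cases ha : a = 0
              · refine ⟨ha, ?_⟩
                rw [ha, zero_smul, zero_add] at hab
                have := congrArg Prod.snd hab
                simpa using this
              · exfalso
                -- then `(z',1) ∈ P y`, so `P x = P y`
                have hb : b ≠ 0 := by
                  rintro rfl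
                  rw [zero_smul, add_zero, smul_eq_zero] at hab
                  rcases hab with h | h
                  · exact ha h
                  · exact hw0 h
                have h3 : (z', (1 : ℝ)) = (-(a / b)) • w := by
                  have h4 : b • (z', (1 : ℝ)) = -(a • w) := eq_neg_of_add_eq_zero_right hab
                  have h5 : (z', (1 : ℝ)) = b⁻¹ • (b • (z', (1 : ℝ))) := by
                    rw [smul_smul, inv_mul_cancel₀ hb, one_smul]
                  rw [h5, h4]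
                  have : b⁻¹ • -(a • w) = (-(a * b⁻¹)) • w := by module
                  rw [this, div_eq_mul_inv]
                apply hPne
                exact eq_of_two (hG.rank x) (hG.rank y) (pt_indep hzz) (hG.sub x z hzx)
                  (hG.sub x z' hz'x) (hG.sub y z hzy)
                  (by rw [h3]; exact (P y).smul_mem _ hwy)
            rw [mem_of_two (hG.rank y') hwy' (hG.sub y' z' hz'y) hind, Submodule.span_le]
            intro q hq
            rcases hq with rfl | hq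
            · exact Submodule.mem_sup_right hwy
            · rw [Set.mem_singleton_iff.1 hq]
              exact Submodule.mem_sup_left (hG.sub x z' hz'x)
        have h3 := Finset.card_le_card hsub
        have h4 := Finset.card_union_le (Y.filter (fun y' => z ∈ K y'))
          (Y ∩ univ.filter (fun v => P v ≤ P x ⊔ P y))
        omega
      replace hX : 2 * (k + t) + 3 ≤ X.card := hX
      replace hY : 2 * (k + t) + 3 ≤ Y.card := hY
      have hYne : Y.Nonempty := Finset.card_pos.1 (by omega)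
      obtain ⟨y1, hy1⟩ := hYne
      obtain ⟨y2, hy2, hy2'⟩ := Finset.exists_mem_notMem_of_card_lt_card
        (s := Y.filter (fun y' => Meet (P y1) (P y'))) (t := Y)
        (lt_of_le_of_lt (hns y1 hy1) (by omega))
      obtain ⟨y3, hy3, hy3'⟩ := Finset.exists_mem_notMem_of_card_lt_card
        (s := Y.filter (fun y' => Meet (P y1) (P y')) ∪ Y.filter (fun y' => Meet (P y2) (P y')))
        (t := Y) (by
          refine lt_of_le_of_lt (Finset.card_union_le _ _) ?_
          have := hns y1 hy1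
          have := hns y2 hy2
          omega)
      have s12 : ¬ Meet (P y1) (P y2) := fun h => hy2' (Finset.mem_filter.2 ⟨hy2, h⟩)
      have s13 : ¬ Meet (P y1) (P y3) := fun h =>
        hy3' (Finset.mem_union_left _ (Finset.mem_filter.2 ⟨hy3, h⟩))
      have s23 : ¬ Meet (P y2) (P y3) := fun h =>
        hy3' (Finset.mem_union_right _ (Finset.mem_filter.2 ⟨hy3, h⟩))
      have hXtr : ∀ x' ∈ X, Tr P y1 y2 y3 x' := fun x' hx' =>
        ⟨adj_meet hG (hXY x' hx' y1 hy1), adj_meet hG (hXY x' hx' y2 hy2),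
          adj_meet hG (hXY x' hx' y3 hy3)⟩
      obtain ⟨x1, hx1, x2, hx2, x3, hx3, n12, n13, n23⟩ := Finset.two_lt_card.1
        (show 2 < X.card by omega)
      have hskew : ∀ u ∈ X, ∀ w ∈ X, u ≠ w → ¬ Meet (P u) (P w) := by
        intro u hu w hw huw
        have hP : P u ≠ P w := nb_inj hG hcol (hXY u hu y1 hy1).symm (hXY w hw y1 hy1).symm huw
        obtain ⟨u1, u2, u3⟩ := hXtr u hu
        obtain ⟨w1, w2, w3⟩ := hXtr w hw
        exact skew_of_tr (hG.rank u) (hG.rank w) s12 s13 s23 u1 u2 u3 w1 w2 w3 hP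
      have hReg : IsReg P (fun v => Tr P y1 y2 y3 v) (fun v => Tr P x1 x2 x3 v) :=
        ⟨y1, y2, y3, x1, x2, x3, ⟨s12, s13, s23⟩,
          ⟨hskew x1 hx1 x2 hx2 n12, hskew x1 hx1 x3 hx3 n13, hskew x2 hx2 x3 hx3 n23⟩,
          hXtr x1 hx1, hXtr x2 hx2, hXtr x3 hx3, fun _ => Iff.rfl, fun _ => Iff.rfl⟩
      refine ⟨univ.filter (fun v => Tr P y1 y2 y3 v ∨ Tr P x1 x2 x3 v),
        Finset.mem_filter.2 ⟨Finset.mem_univ _, Or.inr ⟨_, _, hReg, rfl⟩⟩, ?_, ?_⟩
      · exact Finset.mem_filter.2 ⟨Finset.mem_univ _, Or.inl (hXtr x hx)⟩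
      · have : Y ⊆ Y ∩ univ.filter (fun v => Tr P y1 y2 y3 v ∨ Tr P x1 x2 x3 v) := by
          intro y hy
          rw [Finset.mem_inter]
          refine ⟨hy, Finset.mem_filter.2 ⟨Finset.mem_univ _, Or.inr ?_⟩⟩
          exact ⟨(adj_meet hG (hXY x1 hx1 y hy)).symm, (adj_meet hG (hXY x2 hx2 y hy)).symm,
            (adj_meet hG (hXY x3 hx3 y hy)).symm⟩
        have := Finset.card_le_card this
        omega
  · -- chi
    intro B hB
    rcases (Finset.mem_filter.1 hB).2 with ⟨Q, hQ, hBQ⟩ | ⟨T1, T2, hT, hBT⟩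
    · rw [hBQ]
      exact (hpl Q hQ).mono (Finset.Subset.refl _) (by omega)
    · refine ⟨fun v => if T1 v then 0 else 1, ?_, ?_⟩
      · intro v _
        simp only
        split_ifs <;> omega
      · intro u hu v hv hadj
        rw [hBT] at hu hv
        simp only [Finset.mem_filter, Finset.mem_univ, true_and] at hu hv
        have hP : P u ≠ P v := fun h => hcol u v h hadj
        by_cases h1 : T1 u <;> by_cases h2 : T1 v
        · exact absurd (adj_meet hG hadj) (hT.skew hG.rank h1 h2 hP)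
        · simp [h1, h2]
        · simp [h1, h2]
        · have h1' : T2 u := hu.resolve_left h1
          have h2' : T2 v := hv.resolve_left h2
          exact absurd (adj_meet hG hadj) (hT.symm.skew hG.rank h1' h2' hP)

end

end Pool.Agent.GSBlocks
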