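import Pool.Agent.GSBlocks.Geo
import Pool.Agent.GSBlocks.Forest

set_option autoImplicit false

namespace Pool.Agent.GSBlocks

open Finset Classical Module

section
variable {E : Type*} [AddCommGroup E] [Module ℝ E] {V : Type*}

/-- The subspace of `E × ℝ` attached to a point and a direction. -/
def planeOf (x0 u : E) : Submodule ℝ (E × ℝ) :=
  Submodule.span ℝ {(u, (0 : ℝ)), (x0, (1 : ℝ))}

theorem planeOf_indep {x0 u : E} (hu : u ≠ 0) (a b : ℝ)
    (hab : a • (u, (0 : ℝ)) + b • (x0, (1 : ℝ)) = 0) : a = 0 ∧ b = 0 := by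
  have h2 : b = 0 := by
    have := congrArg Prod.snd hab
    simpa using this
  subst h2
  have h1 : a • u = 0 := by
    have := congrArg Prod.fst hab
    simpa using this
  exact ⟨(smul_eq_zero.1 h1).resolve_right hu, rfl⟩

theorem finrank_planeOf {x0 u : E} (hu : u ≠ 0) : finrank ℝ (planeOf x0 u) = 2 := by
  have hli : LinearIndependent ℝ ![(u, (0 : ℝ)), (x0, (1 : ℝ))] :=
    LinearIndependent.pair_iff.2 (planeOf_indep hu)
  have h : finrank ℝ (Submodule.span ℝ (Set.range ![(u, (0 : ℝ)), (x0, (1 : ℝ))])) = 2 := by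
    rw [finrank_span_eq_card hli]; simp
  have hr : Set.range ![(u, (0 : ℝ)), (x0, (1 : ℝ))] = {(u, (0 : ℝ)), (x0, (1 : ℝ))} := by
    simp [Matrix.range_cons, Matrix.range_empty, Set.pair_comm]
    try rfl
  rw [hr] at h
  exact h

theorem mem_planeOf {x0 u : E} {z : E × ℝ} :
    z ∈ planeOf x0 u ↔ ∃ a b : ℝ, z = (a • u + b • x0, b) := by
  rw [planeOf, Submodule.mem_span_pair]
  constructor
  · rintro ⟨a, b, h⟩
    refine ⟨a, b, ?_⟩
    rw [← h]
    ext <;> simp
  · rintro ⟨a, b, h⟩
    refine ⟨a, b, ?_⟩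
    rw [h]
    ext <;> simp

/-- A colouring from a finite set of classes. -/
theorem colOn_of_classes {α : Type*} (G : SimpleGraph V) (S : Finset V) (r : V → α)
    (h1 : ∀ u ∈ S, ∀ v ∈ S, G.Adj u v → r u ≠ r v) (k : ℕ)
    (hk : (S.image r).card ≤ k) : ColOn G S k := by
  refine ⟨fun v => if h : r v ∈ S.image r then ((S.image r).equivFin ⟨r v, h⟩ : ℕ) else 0, ?_, ?_⟩
  · intro v hv
    have hm : r v ∈ S.image r := Finset.mem_image_of_mem r hv
    simp only [hm, dif_pos]
    exact lt_of_lt_of_le (Fin.is_lt _) hk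
  · intro u hu v hv hadj
    have hmu : r u ∈ S.image r := Finset.mem_image_of_mem r hu
    have hmv : r v ∈ S.image r := Finset.mem_image_of_mem r hv
    simp only [hmu, hmv, dif_pos]
    intro heq
    have h2 := (S.image r).equivFin.injective (Fin.ext heq)
    exact h1 u hu v hv hadj (congrArg Subtype.val h2)

/-- If adjacency in `S` is `r u ≠ r v`, the number of classes is at most the clique bound. -/
theorem classes_card {α : Type*} (G : SimpleGraph V) (S : Finset V) (r : V → α)
    (h1 : ∀ u ∈ S, ∀ v ∈ S, r u ≠ r v → G.Adj u v) (k : ℕ)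
    (hk : ∀ A : Finset V, (∀ u ∈ A, ∀ v ∈ A, u ≠ v → G.Adj u v) → A.card ≤ k) :
    (S.image r).card ≤ k := by
  rcases S.eq_empty_or_nonempty with rfl | ⟨v0, hv0⟩
  · simp
  have hne : Nonempty V := ⟨v0⟩
  have hex : ∀ d ∈ S.image r, ∃ v ∈ S, r v = d := fun d hd => Finset.mem_image.1 hd
  choose! g hg1 hg2 using hex
  have hinj : Set.InjOn g (↑(S.image r) : Set α) := by
    intro d hd d' hd' heq
    rw [← hg2 d hd, ← hg2 d' hd', heq]
  rw [← Finset.card_image_of_injOn hinj]
  apply hk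
  intro u hu v hv huv
  obtain ⟨d, hd, rfl⟩ := Finset.mem_image.1 hu
  obtain ⟨d', hd', rfl⟩ := Finset.mem_image.1 hv
  apply h1 _ (hg1 d hd) _ (hg1 d' hd')
  rw [hg2 d hd, hg2 d' hd']
  intro h
  exact huv (by rw [h])

/-- The block system of a finite family of distinct lines. -/
theorem blockSys_lines [Fintype V] (G : SimpleGraph V) (ℓ : V → AffineSubspace ℝ E)
    (hinj : Function.Injective ℓ)
    (hline : ∀ v, (ℓ v : Set E).Nonempty ∧ finrank ℝ (ℓ v).direction = 1)
    (hadj : ∀ u v, G.Adj u v ↔ u ≠ v ∧ ∃ x, x ∈ ℓ u ∧ x ∈ ℓ v) (k : ℕ)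
    (hk : ∀ A : Finset V, (∀ u ∈ A, ∀ v ∈ A, u ≠ v → G.Adj u v) → A.card ≤ k) :
    ∃ 𝓑 : Finset (Finset V), BlockSys G 𝓑 (k + 8) (k + 2) (fun t => 2 * (k + t) + 3) := by
  have hpt : ∀ v, ∃ x0 u : E, x0 ∈ ℓ v ∧ u ∈ (ℓ v).direction ∧ u ≠ 0 ∧
      ∀ w ∈ (ℓ v).direction, ∃ a : ℝ, a • u = w := by
    intro v
    obtain ⟨⟨x0, hx0⟩, hr⟩ := hline v
    have hfin : Module.Finite ℝ (ℓ v).direction := Module.finite_of_finrank_pos (by omega)
    obtain ⟨u, hu⟩ := Module.finrank_pos_iff_exists_ne_zero.1 (show 0 < finrank ℝ (ℓ v).direction by omega)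
    refine ⟨x0, u, hx0, u.2, fun h => hu (Subtype.ext h), ?_⟩
    intro w hw
    obtain ⟨a, ha⟩ := (finrank_eq_one_iff_of_nonzero' u hu).1 hr ⟨w, hw⟩
    exact ⟨a, congrArg Subtype.val ha⟩
  choose x0 u hx0 hu hu0 hspan using hpt
  set P : V → Submodule ℝ (E × ℝ) := fun v => planeOf (x0 v) (u v) with hP
  have hmemP : ∀ v, ∀ x : E, (x, (1 : ℝ)) ∈ P v ↔ x ∈ ℓ v := by
    intro v x
    rw [hP]
    simp only
    rw [mem_planeOf]
    constructor
    · rintro ⟨a, b, h⟩
      have hb : (1 : ℝ) = b := congrArg Prod.snd h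
      have hx : x = a • u v + b • x0 v := congrArg Prod.fst h
      rw [hx, ← hb, one_smul]
      have := AffineSubspace.vadd_mem_of_mem_direction ((ℓ v).direction.smul_mem a (hu v)) (hx0 v)
      simpa using this
    · intro hx
      obtain ⟨a, ha⟩ := hspan v (x - x0 v) (by
        have := AffineSubspace.vsub_mem_direction hx (hx0 v)
        simpa using this)
      refine ⟨a, 1, ?_⟩
      rw [ha]
      ext <;> simp
  have hmemP0 : ∀ v, ∀ x : E, (x, (0 : ℝ)) ∈ P v → ∃ a : ℝ, x = a • u v := by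
    intro v x hx
    rw [hP] at hx
    simp only at hx
    rw [mem_planeOf] at hx
    obtain ⟨a, b, h⟩ := hx
    have hb : (0 : ℝ) = b := congrArg Prod.snd h
    have hx : x = a • u v + b • x0 v := congrArg Prod.fst h
    refine ⟨a, ?_⟩
    rw [hx, ← hb]
    simp
  have hG : GeoFam G P (fun v => (ℓ v : Set E)) := by
    refine ⟨fun v => finrank_planeOf (hu0 v), fun v x hx => (hmemP v x).2 hx, ?_⟩
    intro v w
    rw [hadj]
    constructor
    · rintro ⟨h1, x, hx, hx'⟩
      exact ⟨h1, x, hx, hx'⟩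
    · rintro ⟨h1, x, hx, hx'⟩
      exact ⟨h1, x, hx, hx'⟩
  have hPinj : ∀ v w, P v = P w → v = w := by
    intro v w h
    apply hinj
    ext x
    rw [← hmemP v x, ← hmemP w x, h]
  refine ⟨blocks P, blockSys_of_geo hG ?_ k hk k ?_⟩
  · intro v w h hvw
    exact hvw.ne (hPinj v w h)
  · intro Q hQ
    set S : Finset V := Finset.univ.filter (fun v => P v ≤ Q) with hS
    set r : V → Submodule ℝ E := fun v => Submodule.span ℝ {u v} with hr
    have h1 : ∀ v ∈ S, ∀ w ∈ S, G.Adj v w → r v ≠ r w := by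
      intro v hv w hw hvw heq
      obtain ⟨-, x, hxv, hxw⟩ := (hadj v w).1 hvw
      apply hvw.ne
      apply hPinj
      have huw : u w ∈ r v := by
        rw [heq, hr]
        exact Submodule.mem_span_singleton_self _
      rw [hr] at huw
      simp only at huw
      rw [Submodule.mem_span_singleton] at huw
      obtain ⟨a, ha⟩ := huw
      refine eq_of_two (hG.rank v) (hG.rank w) (planeOf_indep (x0 := x) (hu0 w)) ?_
        ((hmemP v x).2 hxv) ?_ ((hmemP w x).2 hxw)
      · change (u w, (0 : ℝ)) ∈ planeOf (x0 v) (u v)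
        rw [mem_planeOf]
        exact ⟨a, 0, by rw [ha]; ext <;> simp⟩
      · change (u w, (0 : ℝ)) ∈ planeOf (x0 w) (u w)
        rw [mem_planeOf]
        exact ⟨1, 0, by ext <;> simp⟩
    have h2 : ∀ v ∈ S, ∀ w ∈ S, r v ≠ r w → G.Adj v w := by
      intro v hv w hw hvw
      have hvQ := (Finset.mem_filter.1 hv).2
      have hwQ := (Finset.mem_filter.1 hw).2
      obtain ⟨⟨x, s⟩, hz0, hz1, hz2⟩ := meet_of_le (hG.rank v) (hG.rank w) hQ hvQ hwQ
      by_cases hs : s = 0
      · exfalso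
        subst hs
        obtain ⟨a, ha⟩ := hmemP0 v x hz1
        obtain ⟨b, hb⟩ := hmemP0 w x hz2
        have hx0' : x ≠ 0 := by
          rintro rfl
          exact hz0 rfl
        have ha0 : a ≠ 0 := by
          rintro rfl
          apply hx0'
          rw [ha, zero_smul]
        have hb0 : b ≠ 0 := by
          rintro rfl
          apply hx0'
          rw [hb, zero_smul]
        apply hvw
        rw [hr]
        simp only
        have e1 : Submodule.span ℝ {u v} = Submodule.span ℝ {x} := by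
          rw [ha]
          exact (Submodule.span_singleton_smul_eq (IsUnit.mk0 a ha0) (u v)).symm
        have e2 : Submodule.span ℝ {u w} = Submodule.span ℝ {x} := by
          rw [hb]
          exact (Submodule.span_singleton_smul_eq (IsUnit.mk0 b hb0) (u w)).symm
        rw [e1, e2]
      · rw [hadj]
        have key : ∀ v', (x, s) ∈ P v' → s⁻¹ • x ∈ ℓ v' := by
          intro v' h
          rw [← hmemP]
          have := (P v').smul_mem s⁻¹ h
          have e : s⁻¹ • (x, s) = (s⁻¹ • x, (1 : ℝ)) := by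
            ext
            · simp
            · simp [hs]
          rwa [e] at this
        exact ⟨fun h => hvw (by rw [h]), s⁻¹ • x, key v hz1, key w hz2⟩
    exact colOn_of_classes G S r h1 k (classes_card G S r h2 k hk)

end

end Pool.Agent.GSBlocks
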