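import Pool.Agent.GSBlocks.CaseB

set_option autoImplicit false

namespace Pool.Agent.GSBlocks

open Finset Classical

universe u

variable {V : Type u}

theorem ColOn.empty (G : SimpleGraph V) (n : ℕ) : ColOn G ∅ n :=
  ⟨fun _ => 0, by simp, by simp⟩

theorem color_step {G : SimpleGraph V} {𝓑 : Finset (Finset V)} {b c : ℕ} {s : ℕ → ℕ}
    (hB : BlockSys G 𝓑 b c s) {S VB : Finset V}
    (hVS : VB ⊆ S) {n d t t2 : ℕ} (hVB : ∀ v ∈ VB, (Heavy G 𝓑 S t v).card ≤ n)
    (hVL : ∀ v ∈ VB, (Light G 𝓑 S t v).card ≤ d) (k : ℕ) (β : V → Finset V) (W W' : Finset V)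
    (hWβ : ∀ v ∈ W, Rooted G 𝓑 S VB t t2 k v (β v)) (hWW : W' ⊆ W)
    (hW' : ∀ v ∈ W', ∀ B, ¬ Rooted G 𝓑 S VB t t2 (k + 1) v B) :
    ColOn G W' ((2 * (d + n * (c * t2)) + 1) * (c + 1)) := by
  choose! cc hcc1 hcc2 using hB.chi
  have hWVB : ∀ v ∈ W, v ∈ VB := fun v hv => rooted_mem (hWβ v hv)
  have hβempty : ∀ v ∈ W, β v = ∅ ∨ β v ∈ Heavy G 𝓑 S t v := by
    intro v hv
    have h := hWβ v hv
    cases k with
    | zero => exact Or.inl h.2
    | succ k => exact Or.inr h.2.1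
  -- the bound for the number of candidates
  have hcand : ∀ v ∈ W', ∀ B ∈ Heavy G 𝓑 S t v,
      (W.filter (fun u => G.Adj v u ∧ u ∈ B ∧ β u ≠ B)).card ≤ c * t2 := by
    intro v hv B hBH
    by_contra hcon
    push Not at hcon
    have hB1 := (Finset.mem_filter.1 hBH).1
    have hmaps : ∀ u ∈ W.filter (fun u => G.Adj v u ∧ u ∈ B ∧ β u ≠ B), cc B u ∈ Finset.range c := by
      intro u hu
      exact Finset.mem_range.2 (hcc1 B hB1 u (Finset.mem_filter.1 hu).2.2.1)
    obtain ⟨y, hy, hfib⟩ := Finset.exists_lt_card_fiber_of_mul_lt_card_of_maps_to hmaps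
      (by rw [Finset.card_range]; exact hcon)
    refine hW' v hv B ⟨hWVB v (hWW hv), hBH, _, le_of_lt hfib, ?_, ?_⟩
    · intro u hu u' hu' hadj
      obtain ⟨hu1, hu2⟩ := Finset.mem_filter.1 hu
      obtain ⟨hu1', hu2'⟩ := Finset.mem_filter.1 hu'
      exact hcc2 B hB1 u (Finset.mem_filter.1 hu1).2.2.1 u' (Finset.mem_filter.1 hu1').2.2.1 hadj
        (by rw [hu2, hu2'])
    · intro u hu
      obtain ⟨hu1, hu2⟩ := Finset.mem_filter.1 hu
      obtain ⟨huW, hadj, huB, hne⟩ := Finset.mem_filter.1 hu1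
      exact ⟨hadj, huB, β u, hne, hWβ u huW⟩
  set D : V → Finset V := fun v => W.filter (fun u => G.Adj v u ∧
    ((∀ B ∈ Heavy G 𝓑 S t v, u ∉ B) ∨ ∃ B ∈ Heavy G 𝓑 S t v, u ∈ B ∧ β u ≠ B)) with hD
  have hDc : ∀ v ∈ W', (D v).card ≤ d + n * (c * t2) := by
    intro v hv
    have hsub : D v ⊆ Light G 𝓑 S t v ∪ (Heavy G 𝓑 S t v).biUnion
        (fun B => W.filter (fun u => G.Adj v u ∧ u ∈ B ∧ β u ≠ B)) := by
      intro u hu
      obtain ⟨huW, hadj, hor⟩ := Finset.mem_filter.1 hu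
      rw [Finset.mem_union]
      rcases hor with h | ⟨B, hBH, huB, hne⟩
      · left
        exact Finset.mem_filter.2 ⟨hVS (hWVB u huW), hadj, h⟩
      · right
        exact Finset.mem_biUnion.2 ⟨B, hBH, Finset.mem_filter.2 ⟨huW, hadj, huB, hne⟩⟩
    refine le_trans (Finset.card_le_card hsub) ?_
    refine le_trans (Finset.card_union_le _ _) ?_
    apply Nat.add_le_add
    · exact hVL v (hWVB v (hWW hv))
    · refine le_trans Finset.card_biUnion_le ?_
      refine le_trans (Finset.sum_le_card_nsmul _ _ (c * t2) (fun B hBH => hcand v hv B hBH)) ?_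
      rw [smul_eq_mul]
      exact Nat.mul_le_mul_right _ (hVB v (hWVB v (hWW hv)))
  obtain ⟨C, hC1, hC2⟩ := orient_color _ D W' hDc
  apply ColOn.of_parts C (fun v _ => hC1 v)
  intro j _
  refine ⟨fun v => if β v ∈ 𝓑 ∧ v ∈ β v then cc (β v) v else 0, ?_, ?_⟩
  · intro v hv
    simp only
    split_ifs with h
    · have := hcc1 (β v) h.1 v h.2
      omega
    · omega
  · intro u hu v hv hadj
    obtain ⟨huW', huj⟩ := Finset.mem_filter.1 hu
    obtain ⟨hvW', hvj⟩ := Finset.mem_filter.1 hv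
    have huv : C u = C v := by rw [huj, hvj]
    have hnDv : u ∉ D v := fun h => hC2 v hvW' u huW' h hadj.ne huv
    have hnDu : v ∉ D u := fun h => hC2 u huW' v hvW' h hadj.ne' huv.symm
    have h1 : ∃ B ∈ Heavy G 𝓑 S t v, u ∈ B := by
      by_contra hcon
      push Not at hcon
      exact hnDv (Finset.mem_filter.2 ⟨hWW huW', hadj.symm, Or.inl hcon⟩)
    have h2 : ∀ B ∈ Heavy G 𝓑 S t v, u ∈ B → β u = B := by
      intro B hBH huB
      by_contra hne
      exact hnDv (Finset.mem_filter.2 ⟨hWW huW', hadj.symm, Or.inr ⟨B, hBH, huB, hne⟩⟩)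
    have h1' : ∃ B ∈ Heavy G 𝓑 S t u, v ∈ B := by
      by_contra hcon
      push Not at hcon
      exact hnDu (Finset.mem_filter.2 ⟨hWW hvW', hadj, Or.inl hcon⟩)
    have h2' : ∀ B ∈ Heavy G 𝓑 S t u, v ∈ B → β v = B := by
      intro B hBH huB
      by_contra hne
      exact hnDu (Finset.mem_filter.2 ⟨hWW hvW', hadj, Or.inr ⟨B, hBH, huB, hne⟩⟩)
    obtain ⟨B', hB'H, hvB'⟩ := h1'
    have hβv : β v = B' := h2' B' hB'H hvB'
    have huB' : u ∈ B' := (Finset.mem_filter.1 hB'H).2.1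
    have hβvH : β v ∈ Heavy G 𝓑 S t v := by
      rcases hβempty v (hWW hvW') with h | h
      · rw [h] at hβv
        rw [← hβv] at hvB'
        exact absurd hvB' (Finset.notMem_empty v)
      · exact h
    have hβu : β u = β v := h2 (β v) hβvH (by rw [hβv]; exact huB')
    have hβ𝓑 : β v ∈ 𝓑 := (Finset.mem_filter.1 hβvH).1
    simp only
    rw [hβu, if_pos ⟨hβ𝓑, by rw [hβv]; exact huB'⟩, if_pos ⟨hβ𝓑, by rw [hβv]; exact hvB'⟩]
    exact hcc2 (β v) hβ𝓑 u (by rw [hβv]; exact huB') v (by rw [hβv]; exact hvB') hadj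

theorem color_VB {G : SimpleGraph V} {𝓑 : Finset (Finset V)} {b c : ℕ} {s : ℕ → ℕ}
    (hB : BlockSys G 𝓑 b c s) {S VB : Finset V}
    (hVS : VB ⊆ S) {n d t t2 : ℕ} (hVB : ∀ v ∈ VB, (Heavy G 𝓑 S t v).card ≤ n)
    (hVL : ∀ v ∈ VB, (Light G 𝓑 S t v).card ≤ d) (k : ℕ) :
    ColOn G (VB.filter (fun v => ¬ ∃ B, Rooted G 𝓑 S VB t t2 k v B))
      (k * ((2 * (d + n * (c * t2)) + 1) * (c + 1))) := by
  induction k with
  | zero =>
    have : VB.filter (fun v => ¬ ∃ B, Rooted G 𝓑 S VB t t2 0 v B) = ∅ := by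
      rw [Finset.filter_eq_empty_iff]
      intro v hv
      push Not
      exact ⟨∅, hv, rfl⟩
    rw [this]
    exact ColOn.empty G _
  | succ k ih =>
    set W := VB.filter (fun v => ∃ B, Rooted G 𝓑 S VB t t2 k v B) with hW
    set W' := W.filter (fun v => ¬ ∃ B, Rooted G 𝓑 S VB t t2 (k + 1) v B) with hW'
    have hex : ∀ v ∈ W, ∃ B, Rooted G 𝓑 S VB t t2 k v B := fun v hv => (Finset.mem_filter.1 hv).2
    choose! β hβ using hex
    have h1 : ColOn G W' ((2 * (d + n * (c * t2)) + 1) * (c + 1)) := by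
      apply color_step hB hVS hVB hVL k β W W' hβ (Finset.filter_subset _ _)
      intro v hv B hR
      exact (Finset.mem_filter.1 hv).2 ⟨B, hR⟩
    refine (ih.union h1).mono ?_ ?_
    · intro v hv
      obtain ⟨hv1, hv2⟩ := Finset.mem_filter.1 hv
      rw [Finset.mem_union]
      by_cases h : ∃ B, Rooted G 𝓑 S VB t t2 k v B
      · right
        exact Finset.mem_filter.2 ⟨Finset.mem_filter.2 ⟨hv1, h⟩, hv2⟩
      · left
        exact Finset.mem_filter.2 ⟨hv1, h⟩
    · exact le_of_eq (by ring)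

/-- **Gyárfás–Sumner for graphs with a block system.** -/
theorem gs_blocks (p : ℕ → ℕ) (hp : ∀ i, 0 < i → p i < i) (b c : ℕ) (s : ℕ → ℕ) (n : ℕ) :
    ∃ N : ℕ, ∀ (V : Type u) (G : SimpleGraph V) (𝓑 : Finset (Finset V)),
      BlockSys G 𝓑 b c s → ∀ S : Finset V,
        (¬ ∃ φ, IsCopy G p n φ ∧ ∀ i < n, φ i ∈ S) → ColOn G S N := by
  induction n with
  | zero =>
    refine ⟨0, fun V G 𝓑 _ S hfree => ?_⟩
    rcases S.eq_empty_or_nonempty with rfl | ⟨v, hv⟩
    · exact ColOn.empty G 0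
    · exact absurd ⟨fun _ => v, by intro i hi; omega, by intro i hi; omega⟩ hfree
  | succ n ih =>
    obtain ⟨N', hN'⟩ := ih
    rcases Nat.eq_zero_or_pos n with hn | hn
    · subst hn
      refine ⟨0, fun V G 𝓑 _ S hfree => ?_⟩
      rcases S.eq_empty_or_nonempty with rfl | ⟨v, hv⟩
      · exact ColOn.empty G 0
      · exact absurd ⟨fun _ => v, by intro i hi j hj; omega, fun _ _ => hv⟩ hfree
    · set t := 2 * n * (b + 1) + 1 with ht
      set M := n * n * (2 * n * b) + 1 + s t with hM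
      set d := M * n + n ^ M * s t with hd
      set t2 := (n + 1) * (1 + (b + t) + b + n * b) + 1 with ht2
      refine ⟨(2 * (M * n) + 1) * N' +
        (n + 1) * ((2 * (d + n * (c * t2)) + 1) * (c + 1)), fun V G 𝓑 hB S hfree => ?_⟩
      have hpn : p n < n := hp n hn
      set VA := S.filter (fun v => ¬ ((Heavy G 𝓑 S t v).card ≤ n ∧ (Light G 𝓑 S t v).card ≤ d))
        with hVA
      set VB := S.filter (fun v => (Heavy G 𝓑 S t v).card ≤ n ∧ (Light G 𝓑 S t v).card ≤ d)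
        with hVB
      have hcolA : ColOn G VA ((2 * (M * n) + 1) * N') := by
        have hnd : ∀ x ∈ VA, ¬ Disj G p n S x M := by
          intro x hx hD
          apply (Finset.mem_filter.1 hx).2
          refine ⟨le_of_lt (caseA1 hB hpn hfree hD ?_ ?_), caseA2 hB hfree hD ?_ ?_⟩
          · rw [hM]; omega
          · rw [ht]; omega
          · rw [ht]; omega
          · rw [hM]; omega
        obtain ⟨C, hC1, hC2⟩ := split_classes M hpn (Finset.filter_subset _ _) hnd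
        apply ColOn.of_parts C (fun v _ => hC1 v)
        intro j _
        exact hN' V G 𝓑 hB _ (hC2 j)
      have hcolB : ColOn G VB ((n + 1) * ((2 * (d + n * (c * t2)) + 1) * (c + 1))) := by
        have h1 : ∀ v ∈ VB, (Heavy G 𝓑 S t v).card ≤ n :=
          fun v hv => (Finset.mem_filter.1 hv).2.1
        have h2 : ∀ v ∈ VB, (Light G 𝓑 S t v).card ≤ d :=
          fun v hv => (Finset.mem_filter.1 hv).2.2
        have h3 := color_VB (t2 := t2) hB (Finset.filter_subset _ _ : VB ⊆ S) h1 h2 (n + 1)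
        have h4 : VB.filter (fun v => ¬ ∃ B, Rooted G 𝓑 S VB t t2 (n + 1) v B) = VB := by
          rw [Finset.filter_eq_self]
          rintro v hv ⟨B, hR⟩
          exact hfree (embed hB hp (Finset.filter_subset _ _) h1 (by rw [ht2]; omega) hR)
        rwa [h4] at h3
      refine (hcolA.union hcolB).mono ?_ le_rfl
      intro v hv
      rw [Finset.mem_union]
      by_cases h : (Heavy G 𝓑 S t v).card ≤ n ∧ (Light G 𝓑 S t v).card ≤ d
      · right
        exact Finset.mem_filter.2 ⟨hv, h⟩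
      · left
        exact Finset.mem_filter.2 ⟨hv, h⟩

end Pool.Agent.GSBlocks
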