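import Pool.Agent.GSBlocks.Lines

set_option autoImplicit false

namespace Pool.Agent.GSBlocks

open Finset Classical Module

section
variable {E : Type*} [AddCommGroup E] [Module ℝ E]

/-- the affine map `t ↦ a + t u` -/
def lineMap' (a u : E) : ℝ →ᵃ[ℝ] E := AffineMap.lineMap a (a + u)

theorem lineMap'_apply (a u : E) (t : ℝ) : lineMap' a u t = a + t • u := by
  simp only [lineMap', AffineMap.lineMap_apply]
  simp [add_comm]

theorem mem_planeOf_one {a u x : E} : (x, (1 : ℝ)) ∈ planeOf a u ↔ ∃ t : ℝ, x = a + t • u := by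
  rw [mem_planeOf]
  constructor
  · rintro ⟨s, t, h⟩
    have ht : (1 : ℝ) = t := congrArg Prod.snd h
    have hx : x = s • u + t • a := congrArg Prod.fst h
    refine ⟨s, ?_⟩
    rw [hx, ← ht, one_smul, add_comm]
  · rintro ⟨t, h⟩
    refine ⟨t, 1, ?_⟩
    rw [h, one_smul, add_comm]

theorem uIcc_meet {α β γ δ ξ : ℝ} (h1 : ξ ∈ Set.uIcc α β) (h2 : ξ ∈ Set.uIcc γ δ) :
    α ∈ Set.uIcc γ δ ∨ β ∈ Set.uIcc γ δ ∨ γ ∈ Set.uIcc α β := by
  simp only [Set.mem_uIcc] at *
  rcases le_total α γ with h3 | h3 <;> rcases le_total α δ with h4 | h4 <;>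
    rcases le_total β γ with h5 | h5 <;> rcases le_total β δ with h6 | h6 <;>
    rcases h1 with ⟨h1, h1'⟩ | ⟨h1, h1'⟩ <;> rcases h2 with ⟨h2, h2'⟩ | ⟨h2, h2'⟩ <;>
    first
      | (left; left; constructor <;> linarith)
      | (left; right; constructor <;> linarith)
      | (right; left; left; constructor <;> linarith)
      | (right; left; right; constructor <;> linarith)
      | (right; right; left; constructor <;> linarith)
      | (right; right; right; constructor <;> linarith)

theorem segment_meet {a u p q r s x : E} {p' q' r' s' : ℝ} (hu : u ≠ 0)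
    (hp : p = a + p' • u) (hq : q = a + q' • u) (hr : r = a + r' • u) (hs : s = a + s' • u)
    (h1 : x ∈ segment ℝ p q) (h2 : x ∈ segment ℝ r s) :
    p ∈ segment ℝ r s ∨ q ∈ segment ℝ r s ∨ r ∈ segment ℝ p q := by
  have hinj : ∀ t t' : ℝ, a + t • u = a + t' • u → t = t' := by
    intro t t' h
    have h3 : (t - t') • u = 0 := by
      have := add_left_cancel h
      rw [sub_smul, this, sub_self]
    rcases smul_eq_zero.1 h3 with h4 | h4
    · linarith
    · exact absurd h4 hu
  have key : ∀ (α β : ℝ) (y : E), y ∈ segment ℝ (a + α • u) (a + β • u) ↔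
      ∃ t ∈ Set.uIcc α β, y = a + t • u := by
    intro α β y
    rw [← lineMap'_apply, ← lineMap'_apply, ← image_segment, segment_eq_uIcc]
    constructor
    · rintro ⟨t, ht, rfl⟩
      exact ⟨t, ht, lineMap'_apply a u t⟩
    · rintro ⟨t, ht, h⟩
      exact ⟨t, ht, by rw [h]; exact lineMap'_apply a u t⟩
  subst hp hq hr hs
  obtain ⟨t, ht, hx⟩ := (key _ _ _).1 h1
  obtain ⟨t', ht', hx'⟩ := (key _ _ _).1 h2
  have htt : t = t' := hinj _ _ (by rw [← hx, ← hx'])
  subst htt
  rcases uIcc_meet ht ht' with h | h | h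
  · left; exact (key _ _ _).2 ⟨p', h, rfl⟩
  · right; left; exact (key _ _ _).2 ⟨q', h, rfl⟩
  · right; right; exact (key _ _ _).2 ⟨r', h, rfl⟩

end

section
variable {E : Type*} [AddCommGroup E] [Module ℝ E] [Nontrivial E]

theorem exists_dir (a b : E) : ∃ u : E, u ≠ 0 ∧ ∃ β : ℝ, b = a + β • u := by
  by_cases h : a = b
  · obtain ⟨u, hu⟩ := exists_ne (0 : E)
    exact ⟨u, hu, 0, by rw [h]; simp⟩
  · refine ⟨b - a, fun h' => h (sub_eq_zero.1 h').symm, 1, ?_⟩
    rw [one_smul]; abel

omit [Nontrivial E] in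
/-- A subset of a plane is coplanar. -/
theorem coplanar_of_le {s : Set E} {Q : Submodule ℝ (E × ℝ)} (hQ : finrank ℝ Q = 3)
    (hs : ∀ x ∈ s, (x, (1 : ℝ)) ∈ Q) : Coplanar ℝ s := by
  rcases s.eq_empty_or_nonempty with rfl | ⟨x0, hx0⟩
  · exact coplanar_empty ℝ E
  have hfQ : FiniteDimensional ℝ Q := Module.finite_of_finrank_pos (by omega)
  set Q0 : Submodule ℝ E := Q.comap (LinearMap.inl ℝ E ℝ) with hQ0
  have hle : vectorSpan ℝ s ≤ Q0 := by
    rw [vectorSpan_def, Submodule.span_le]
    rintro _ ⟨x, hx, y, hy, rfl⟩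
    change (x -ᵥ y, (0 : ℝ)) ∈ Q
    have := Q.sub_mem (hs x hx) (hs y hy)
    simpa using this
  -- `Q0` embeds in a proper subspace of `Q`
  have hmap : Q0.map (LinearMap.inl ℝ E ℝ) ≤ Q := Submodule.map_comap_le _ _
  have hinj : Function.Injective (LinearMap.inl ℝ E ℝ) := LinearMap.inl_injective
  have hlt : Q0.map (LinearMap.inl ℝ E ℝ) < Q := by
    refine lt_of_le_of_ne hmap ?_
    intro heq
    have h1 := hs x0 hx0
    rw [← heq] at h1
    obtain ⟨y, -, hy⟩ := h1
    have := congrArg Prod.snd hy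
    simp at this
  have hfin' : FiniteDimensional ℝ (Q0.map (LinearMap.inl ℝ E ℝ)) :=
    Submodule.finiteDimensional_of_le hmap
  have hr1 : finrank ℝ (Q0.map (LinearMap.inl ℝ E ℝ)) < 3 := by
    rw [← hQ]
    exact Submodule.finrank_lt_finrank_of_lt hlt
  have hequiv : Module.rank ℝ Q0 = Module.rank ℝ (Q0.map (LinearMap.inl ℝ E ℝ)) :=
    (LinearEquiv.rank_eq (Submodule.equivMapOfInjective _ hinj Q0))
  have hr2 : Module.rank ℝ Q0 ≤ 2 := by
    rw [hequiv, ← finrank_eq_rank]
    have : finrank ℝ (Q0.map (LinearMap.inl ℝ E ℝ)) ≤ 2 := by omega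
    exact_mod_cast this
  exact le_trans (Submodule.rank_mono hle) hr2

theorem gs_segments {W : Type} [Finite W] (F : SimpleGraph W) (hF : F.IsAcyclic) (k c : ℕ) :
    ∃ N : ℕ, ∀ (E : Type) [AddCommGroup E] [Module ℝ E] [Nontrivial E] (V : Type) [Finite V]
      (G : SimpleGraph V) (a b : V → E),
      (∀ u v, G.Adj u v ↔ u ≠ v ∧ (segment ℝ (a u) (b u) ∩ segment ℝ (a v) (b v)).Nonempty) →
      G.cliqueNum ≤ k → ¬ F.IsIndContained G →
      (∀ A : Set V, Coplanar ℝ (⋃ v ∈ A, segment ℝ (a v) (b v)) → (G.induce A).Colorable c) →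
      G.Colorable N := by
  obtain ⟨N, hN⟩ := gs_blocks_forest.{0, 0} F hF (k + 8) (c + 2) (fun t => 2 * (k + t) + 3)
  refine ⟨(2 * (k + k) + 1) * N, ?_⟩
  intro E _ _ _ V _ G a b hadj hk hfree hpl
  have := Fintype.ofFinite V
  choose u hu β hβ using fun v => exists_dir (a v) (b v)
  set P : V → Submodule ℝ (E × ℝ) := fun v => planeOf (a v) (u v) with hP
  have hrank : ∀ v, finrank ℝ (P v) = 2 := fun v => finrank_planeOf (hu v)
  have hsub : ∀ v, ∀ x ∈ segment ℝ (a v) (b v), (x, (1 : ℝ)) ∈ P v := by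
    intro v x hx
    rw [segment_eq_image'] at hx
    obtain ⟨t, -, rfl⟩ := hx
    rw [hP]
    simp only
    rw [mem_planeOf_one]
    refine ⟨t * β v, ?_⟩
    rw [hβ v, add_sub_cancel_left, smul_smul]
  have hclique : ∀ A : Finset V, (∀ u ∈ A, ∀ v ∈ A, u ≠ v → G.Adj u v) → A.card ≤ k := by
    intro A hA
    refine le_trans (SimpleGraph.IsClique.card_le_cliqueNum (tc := ?_)) hk
    intro u hu v hv huv
    exact hA u hu v hv huv
  -- colouring of the collinear intersections
  set D : V → Finset V := fun v =>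
    Finset.univ.filter (fun w => a v ∈ segment ℝ (a w) (b w)) ∪
      Finset.univ.filter (fun w => b v ∈ segment ℝ (a w) (b w)) with hD
  have hpt : ∀ x : E, (Finset.univ.filter (fun w => x ∈ segment ℝ (a w) (b w))).card ≤ k := by
    intro x
    apply hclique
    intro u hu v hv huv
    exact (hadj u v).2 ⟨huv, x, (Finset.mem_filter.1 hu).2, (Finset.mem_filter.1 hv).2⟩
  have hDc : ∀ v ∈ (Finset.univ : Finset V), (D v).card ≤ k + k := by
    intro v _
    refine le_trans (Finset.card_union_le _ _) ?_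
    exact Nat.add_le_add (hpt _) (hpt _)
  obtain ⟨C, hC1, hC2⟩ := orient_color (k + k) D Finset.univ hDc
  have hcolC : ∀ v w, P v = P w → G.Adj v w → C v ≠ C w := by
    intro v w hPvw hvw
    obtain ⟨hne, x, hxv, hxw⟩ := (hadj v w).1 hvw
    have haw : (a w, (1 : ℝ)) ∈ P v := by rw [hPvw]; exact hsub w _ (left_mem_segment ℝ _ _)
    have hbw : (b w, (1 : ℝ)) ∈ P v := by rw [hPvw]; exact hsub w _ (right_mem_segment ℝ _ _)
    rw [hP] at haw hbw
    simp only at haw hbw
    rw [mem_planeOf_one] at haw hbw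
    obtain ⟨r', hr'⟩ := haw
    obtain ⟨s', hs'⟩ := hbw
    have hav : a v = a v + (0 : ℝ) • u v := by simp
    rcases segment_meet (hu v) hav (hβ v) hr' hs' hxv hxw with h | h | h
    · exact fun heq => hC2 v (Finset.mem_univ _) w (Finset.mem_univ _)
        (Finset.mem_union_left _ (Finset.mem_filter.2 ⟨Finset.mem_univ _, h⟩)) hne.symm heq.symm
    · exact fun heq => hC2 v (Finset.mem_univ _) w (Finset.mem_univ _)
        (Finset.mem_union_right _ (Finset.mem_filter.2 ⟨Finset.mem_univ _, h⟩)) hne.symm heq.symm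
    · exact fun heq => hC2 w (Finset.mem_univ _) v (Finset.mem_univ _)
        (Finset.mem_union_left _ (Finset.mem_filter.2 ⟨Finset.mem_univ _, h⟩)) hne heq
  -- each colour class has a block system
  have hclass : ∀ j < 2 * (k + k) + 1, ColOn G (Finset.univ.filter (fun v => C v = j)) N := by
    intro j _
    set A : Set V := {v | C v = j} with hA
    have hind : (G.induce A).Colorable N := by
      have hGeo : GeoFam (G.induce A) (fun v : A => P v) (fun v : A => segment ℝ (a v) (b v)) := by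
        refine ⟨fun v => hrank v, fun v x hx => hsub v x hx, ?_⟩
        intro v w
        rw [SimpleGraph.comap_adj, hadj]
        constructor
        · rintro ⟨h1, h2⟩
          exact ⟨fun h => h1 (congrArg Subtype.val h), h2⟩
        · rintro ⟨h1, h2⟩
          exact ⟨fun h => h1 (Subtype.ext h), h2⟩
      apply hN A (G.induce A) (blocks (fun v : A => P v))
      · apply blockSys_of_geo hGeo
        · intro v w hPvw hvw
          have h1 : C v = C w := by
            have e1 : C v = j := v.2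
            have e2 : C w = j := w.2
            rw [e1, e2]
          exact hcolC v w hPvw hvw h1
        · intro B hB
          have : (B.map (Function.Embedding.subtype _)).card ≤ k := by
            apply hclique
            intro x hx y hy hxy
            obtain ⟨x', hx', rfl⟩ := Finset.mem_map.1 hx
            obtain ⟨y', hy', rfl⟩ := Finset.mem_map.1 hy
            exact hB x' hx' y' hy' (fun h => hxy (by rw [h]))
          rwa [Finset.card_map] at this
        · intro Q hQ
          have hcop : Coplanar ℝ (⋃ v ∈ {v : V | v ∈ A ∧ P v ≤ Q}, segment ℝ (a v) (b v)) := by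
            apply coplanar_of_le hQ
            intro x hx
            simp only [Set.mem_iUnion] at hx
            obtain ⟨v, hv, hx⟩ := hx
            exact hv.2 (hsub v x hx)
          obtain ⟨col⟩ := hpl _ hcop
          refine ⟨fun v => if h : (v : V) ∈ {v : V | v ∈ A ∧ P v ≤ Q} then
            (col ⟨v, h⟩ : ℕ) else 0, ?_, ?_⟩
          · intro v hv
            have hv' : (v : V) ∈ {v : V | v ∈ A ∧ P v ≤ Q} := ⟨v.2, (Finset.mem_filter.1 hv).2⟩
            simp only [hv', dif_pos]
            exact Fin.is_lt _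
          · intro v hv w hw hvw
            have hv' : (v : V) ∈ {v : V | v ∈ A ∧ P v ≤ Q} := ⟨v.2, (Finset.mem_filter.1 hv).2⟩
            have hw' : (w : V) ∈ {v : V | v ∈ A ∧ P v ≤ Q} := ⟨w.2, (Finset.mem_filter.1 hw).2⟩
            simp only [hv', hw', dif_pos]
            intro heq
            exact col.valid (show (G.induce _).Adj ⟨(v : V), hv'⟩ ⟨(w : V), hw'⟩ from hvw)
              (Fin.ext heq)
      · rintro ⟨f⟩
        exact hfree ⟨(SimpleGraph.Embedding.comap (Function.Embedding.subtype _) G).comp f⟩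
    obtain ⟨col⟩ := hind
    refine ⟨fun v => if h : v ∈ A then (col ⟨v, h⟩ : ℕ) else 0, ?_, ?_⟩
    · intro v hv
      have hv' : v ∈ A := (Finset.mem_filter.1 hv).2
      simp only [hv', dif_pos]
      exact Fin.is_lt _
    · intro v hv w hw hvw
      have hv' : v ∈ A := (Finset.mem_filter.1 hv).2
      have hw' : w ∈ A := (Finset.mem_filter.1 hw).2
      simp only [hv', hw', dif_pos]
      intro heq
      exact col.valid (show (G.induce A).Adj ⟨v, hv'⟩ ⟨w, hw'⟩ from hvw) (Fin.ext heq)
  obtain ⟨c', hc1, hc2⟩ := ColOn.of_parts (S := Finset.univ) C (fun v _ => hC1 v) hclass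
  exact ⟨SimpleGraph.Coloring.mk
    (fun v => (⟨c' v, hc1 v (Finset.mem_univ v)⟩ : Fin ((2 * (k + k) + 1) * N)))
    (fun {x y} hxy heq => hc2 x (Finset.mem_univ x) y (Finset.mem_univ y) hxy
      (congrArg Fin.val heq))⟩

end

end Pool.Agent.GSBlocks
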